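import Mathlib

/-! Total variation of the direction of a plane curve in terms of the number of zeros of the
linear combinations of its components. -/

open MeasureTheory Set Filter
open scoped ENNReal NNReal

namespace Pool.Agent.TH275.LF

/-- one-dimensional area inequality with bounded multiplicity -/
theorem mult_le {S : Set ℝ} (hS : MeasurableSet S) {h h' : ℝ → ℝ}
    (hd : ∀ x ∈ S, HasDerivAt h (h' x) x) (hne : ∀ x ∈ S, h' x ≠ 0)
    {w : ℝ → ℝ≥0∞} (hw : Measurable w) {k : ℕ}
    (hk : ∀ s, (S ∩ h ⁻¹' {s}).encard ≤ k) :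
    ∫⁻ x in S, ENNReal.ofReal |h' x| * w (h x) ≤ k * ∫⁻ s, w s := by
  classical
  rcases S.eq_empty_or_nonempty with rfl | hSn
  · simp
  let r : (ℝ →L[ℝ] ℝ) → ℝ≥0 := fun A => if A 1 = 0 then 1 else ‖A 1‖₊ / 2
  have rpos : ∀ A, r A ≠ 0 := by
    intro A
    simp only [r]
    split_ifs with hA
    · exact one_ne_zero
    · have : 0 < ‖A 1‖₊ := by simpa using hA
      positivity
  obtain ⟨t, A, htd, htm, hcov, happ, hA⟩ :=
    exists_partition_approximatesLinearOn_of_hasFDerivWithinAt h S
      (fun x => ContinuousLinearMap.toSpanSingleton ℝ (h' x))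
      (fun x hx => (hd x hx).hasFDerivAt.hasFDerivWithinAt) r rpos
  have hA1 : ∀ n, A n 1 ≠ 0 := by
    intro n
    obtain ⟨y, hy, hy'⟩ := hA hSn n
    rw [hy']
    simpa using hne y hy
  have hinj : ∀ n, InjOn h (S ∩ t n) := by
    intro n x hx y hy hxy
    have h1 := happ n x hx y hy
    rw [hxy, sub_self, zero_sub, norm_neg] at h1
    by_contra hne'
    have h2 : A n (x - y) = (x - y) * A n 1 := by
      have : x - y = (x - y) • (1:ℝ) := by simp
      conv_lhs => rw [this]
      rw [map_smul, smul_eq_mul]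
    rw [h2, norm_mul] at h1
    have h3 : 0 < ‖x - y‖ := by
      rw [norm_pos_iff]
      exact sub_ne_zero.2 hne'
    have h4 : 0 < ‖A n 1‖ := by
      rw [norm_pos_iff]
      exact hA1 n
    have h5 : (r (A n) : ℝ) = ‖A n 1‖ / 2 := by
      simp only [r, if_neg (hA1 n)]
      push_cast
      rfl
    rw [h5] at h1
    nlinarith
  have hSt : ∀ n, MeasurableSet (S ∩ t n) := fun n => hS.inter (htm n)
  have hU : S = ⋃ n, (S ∩ t n) := by
    rw [← inter_iUnion]
    exact (inter_eq_left.2 hcov).symm
  have hdisj : Pairwise (Function.onFun Disjoint fun n => S ∩ t n) := fun i j hij =>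
    ((htd hij).inter_left' S).inter_right' S
  have himg : ∀ n, MeasurableSet (h '' (S ∩ t n)) := fun n =>
    measurable_image_of_fderivWithin (hSt n)
      (fun x hx => (hd x hx.1).hasFDerivAt.hasFDerivWithinAt) (hinj n)
  have e1 : ∫⁻ x in S, ENNReal.ofReal |h' x| * w (h x) =
      ∑' n, ∫⁻ s, (h '' (S ∩ t n)).indicator w s := by
    conv_lhs => rw [hU]
    rw [lintegral_iUnion hSt hdisj]
    congr 1
    ext n
    rw [lintegral_indicator (himg n)]
    exact (lintegral_image_eq_lintegral_abs_deriv_mul (hSt n)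
      (fun x hx => (hd x hx.1).hasDerivWithinAt) (hinj n) w).symm
  rw [e1, ← lintegral_tsum (fun n => (hw.indicator (himg n)).aemeasurable),
    ← lintegral_const_mul _ hw]
  refine lintegral_mono fun s => ?_
  -- pointwise bound
  have h1 : ∀ F : Finset ℕ, ∑ n ∈ F, (h '' (S ∩ t n)).indicator w s ≤ k * w s := by
    intro F
    have h2 : ∑ n ∈ F, (h '' (S ∩ t n)).indicator w s =
        ((F.filter fun n => s ∈ h '' (S ∩ t n)).card : ℝ≥0∞) * w s := by
      rw [Finset.card_filter]
      push_cast
      rw [Finset.sum_mul]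
      refine Finset.sum_congr rfl fun n _ => ?_
      by_cases hs : s ∈ h '' (S ∩ t n)
      · rw [indicator_of_mem hs, if_pos hs, one_mul]
      · rw [indicator_of_notMem hs, if_neg hs, zero_mul]
    rw [h2]
    gcongr
    have h3 : ((F.filter fun n => s ∈ h '' (S ∩ t n)).card : ℕ∞) ≤ k := by
      refine le_trans ?_ (hk s)
      rw [← encard_coe_eq_coe_finsetCard]
      have hch : ∀ n, ∃ x, s ∈ h '' (S ∩ t n) → x ∈ S ∩ t n ∧ h x = s := by
        intro n
        by_cases hs : s ∈ h '' (S ∩ t n)
        · obtain ⟨x, hx, hx'⟩ := hs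
          exact ⟨x, fun _ => ⟨hx, hx'⟩⟩
        · exact ⟨0, fun h' => absurd h' hs⟩
      choose x hx using hch
      refine encard_le_encard_of_injOn (f := x) ?_ ?_
      · intro n hn
        have := (Finset.mem_filter.1 hn).2
        obtain ⟨h4, h5⟩ := hx n this
        exact ⟨h4.1, h5⟩
      · intro n hn n' hn' hxx
        have a1 := (hx n (Finset.mem_filter.1 hn).2).1.2
        have a2 := (hx n' (Finset.mem_filter.1 hn').2).1.2
        by_contra hcon
        rw [hxx] at a1
        exact (Set.disjoint_left.1 (htd hcon)) a1 a2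
    exact_mod_cast h3
  rw [ENNReal.tsum_eq_iSup_sum]
  exact iSup_le h1

lemma lintegral_arctan : ∫⁻ s : ℝ, ENNReal.ofReal (1 + s ^ 2)⁻¹ = ENNReal.ofReal Real.pi := by
  rw [← ofReal_integral_eq_lintegral_ofReal integrable_inv_one_add_sq
    (Eventually.of_forall fun x => by positivity), integral_univ_inv_one_add_sq]

/-- **Variation of the direction.** If every nontrivial linear combination of `f` and `g` vanishes
identically or at most `k` times, then the direction of `(f, g)` turns by at most `k π`. -/
theorem variation_le {f g f' g' : ℝ → ℝ} (hf : ∀ x, HasDerivAt f (f' x) x)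
    (hg : ∀ x, HasDerivAt g (g' x) x) (cf : Continuous f') (cg : Continuous g') {k : ℕ}
    (hk : ∀ u v : ℝ, (u ≠ 0 ∨ v ≠ 0) → (∀ x, u * f x + v * g x = 0) ∨
      {x | u * f x + v * g x = 0}.encard ≤ k) :
    ∫⁻ x, ENNReal.ofReal (|f x * g' x - g x * f' x| / (f x ^ 2 + g x ^ 2)) ≤
      ENNReal.ofReal (k * Real.pi) := by
  have cf0 : Continuous f := continuous_iff_continuousAt.2 fun x => (hf x).continuousAt
  have cg0 : Continuous g := continuous_iff_continuousAt.2 fun x => (hg x).continuousAt
  rcases hk 0 1 (Or.inr one_ne_zero) with h0 | h0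
  · -- `g` vanishes identically
    have hg0 : ∀ x, g x = 0 := fun x => by simpa using h0 x
    have hg' : ∀ x, g' x = 0 := by
      intro x
      have h1 : HasDerivAt g 0 x := by
        have : g = fun _ => 0 := funext hg0
        rw [this]
        exact hasDerivAt_const x 0
      exact (hg x).unique h1
    simp [hg0, hg']
  have hfin : {x | g x = 0}.Finite := by
    have h1 : {x | (0:ℝ) * f x + 1 * g x = 0} = {x | g x = 0} := by
      ext x; simp
    rw [h1] at h0
    exact Set.finite_of_encard_le_coe h0
  set S : Set ℝ := {x | g x ≠ 0 ∧ f' x * g x - f x * g' x ≠ 0} with hSdef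
  have hSm : MeasurableSet S := by
    have h1 : IsOpen {x | g x ≠ 0} := isOpen_ne_fun cg0 continuous_const
    have h2 : IsOpen {x | f' x * g x - f x * g' x ≠ 0} :=
      isOpen_ne_fun ((cf.mul cg0).sub (cf0.mul cg)) continuous_const
    exact (h1.inter h2).measurableSet
  set h : ℝ → ℝ := fun x => f x / g x with hh
  set h' : ℝ → ℝ := fun x => (f' x * g x - f x * g' x) / g x ^ 2 with hh'
  have hd : ∀ x ∈ S, HasDerivAt h (h' x) x := fun x hx => (hf x).div (hg x) hx.1
  have hne : ∀ x ∈ S, h' x ≠ 0 := fun x hx => div_ne_zero hx.2 (pow_ne_zero _ hx.1)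
  have hkS : ∀ s, (S ∩ h ⁻¹' {s}).encard ≤ k := by
    intro s
    rcases hk 1 (-s) (Or.inl one_ne_zero) with h1 | h1
    · -- then `S` is empty
      have hSe : S = ∅ := by
        rw [eq_empty_iff_forall_notMem]
        rintro x ⟨-, hx⟩
        apply hx
        have h2 : ∀ x, f x = s * g x := fun x => by linarith [h1 x]
        have h3 : f' x = s * g' x := by
          have h4 : HasDerivAt f (s * g' x) x := by
            have : f = fun x => s * g x := funext h2
            rw [this]
            exact (hg x).const_mul s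
          exact (hf x).unique h4
        rw [h3, h2 x]
        ring
      rw [hSe]
      simp
    · refine le_trans (encard_le_encard ?_) h1
      rintro x ⟨hx, hx'⟩
      have h2 : f x / g x = s := hx'
      rw [div_eq_iff hx.1] at h2
      show 1 * f x + -s * g x = 0
      rw [h2]
      ring
  have key := mult_le hSm hd hne (w := fun s => ENNReal.ofReal (1 + s ^ 2)⁻¹)
    (by fun_prop) hkS
  rw [lintegral_arctan] at key
  have e1 : ∀ᵐ x : ℝ, ENNReal.ofReal (|f x * g' x - g x * f' x| / (f x ^ 2 + g x ^ 2)) =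
      S.indicator (fun x => ENNReal.ofReal |h' x| * ENNReal.ofReal (1 + h x ^ 2)⁻¹) x := by
    have h2 : ∀ᵐ x : ℝ, x ∉ {x | g x = 0} := compl_mem_ae_iff.2 (hfin.measure_zero _)
    filter_upwards [h2] with x hx
    have hgx : g x ≠ 0 := hx
    by_cases hW : f' x * g x - f x * g' x = 0
    · have : x ∉ S := fun h => h.2 hW
      rw [indicator_of_notMem this]
      have h3 : f x * g' x - g x * f' x = 0 := by linarith
      rw [h3]
      simp
    · have : x ∈ S := ⟨hgx, hW⟩
      rw [indicator_of_mem this, ← ENNReal.ofReal_mul (abs_nonneg _)]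
      congr 1
      simp only [hh, hh']
      rw [abs_div, abs_of_pos (show 0 < g x ^ 2 by positivity)]
      have h4 : |f x * g' x - g x * f' x| = |f' x * g x - f x * g' x| := by
        rw [← abs_neg]
        congr 1
        ring
      rw [h4]
      have h5 : 0 < f x ^ 2 + g x ^ 2 := by positivity
      have h6 : 1 + (f x / g x) ^ 2 = (f x ^ 2 + g x ^ 2) / g x ^ 2 := by
        field_simp
        ring
      rw [h6, inv_div]
      field_simp
  rw [lintegral_congr_ae e1, lintegral_indicator hSm]
  refine key.trans (le_of_eq ?_)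
  rw [ENNReal.ofReal_mul (by positivity)]
  simp

end Pool.Agent.TH275.LF
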