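import Pool.Agent.H709R2.Cut
import Pool.Agent.TH275.LF.Var

/-! Total variation of the direction of a plane field along lines and over rectangles. -/

open MeasureTheory Set Filter Topology
open scoped ENNReal

namespace Pool.Agent.TH275.LF

open Pool.Agent.H709R2 (wedge measurable_kernel)

/-- `LineZ X k p v`: along the line `t ↦ p + t v` every nontrivial linear combination of the
components of `X` vanishes identically or at most `k` times -/
def LineZ (X : ℝ × ℝ → ℝ × ℝ) (k : ℕ) (p v : ℝ × ℝ) : Prop :=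
  ∀ a b : ℝ, (a ≠ 0 ∨ b ≠ 0) → (∀ t : ℝ, a * (X (p + t • v)).1 + b * (X (p + t • v)).2 = 0) ∨
    {t : ℝ | a * (X (p + t • v)).1 + b * (X (p + t • v)).2 = 0}.encard ≤ k

/-- variation of the direction along a line -/
theorem line_gen {X : ℝ × ℝ → ℝ × ℝ} (hX : ContDiff ℝ 2 X) {k : ℕ} {p v : ℝ × ℝ}
    (h : LineZ X k p v) :
    ∫⁻ t : ℝ, ENNReal.ofReal
      (|wedge (X (p + t • v)) (fderiv ℝ X (p + t • v) v)| / H709R2.sq (X (p + t • v))) ≤
      ENNReal.ofReal (k * Real.pi) := by
  have hl : ∀ t : ℝ, HasDerivAt (fun t : ℝ => p + t • v) v t := fun t => by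
    simpa using ((hasDerivAt_id t).smul_const v).const_add p
  have hd : ∀ t : ℝ, HasDerivAt (fun t : ℝ => X (p + t • v)) (fderiv ℝ X (p + t • v) v) t :=
    fun t => (hX.differentiable (by norm_num) _).hasFDerivAt.comp_hasDerivAt t (hl t)
  have hd1 : ∀ t : ℝ, HasDerivAt (fun t : ℝ => (X (p + t • v)).1)
      (fderiv ℝ X (p + t • v) v).1 t := fun t =>
    (ContinuousLinearMap.fst ℝ ℝ ℝ).hasFDerivAt.comp_hasDerivAt t (hd t)
  have hd2 : ∀ t : ℝ, HasDerivAt (fun t : ℝ => (X (p + t • v)).2)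
      (fderiv ℝ X (p + t • v) v).2 t := fun t =>
    (ContinuousLinearMap.snd ℝ ℝ ℝ).hasFDerivAt.comp_hasDerivAt t (hd t)
  have hc : Continuous fun t : ℝ => fderiv ℝ X (p + t • v) v :=
    ((hX.continuous_fderiv (by norm_num)).comp (by fun_prop)).clm_apply continuous_const
  exact variation_le hd1 hd2 (continuous_fst.comp hc) (continuous_snd.comp hc) h

theorem rect_gen {X : ℝ × ℝ → ℝ × ℝ} (hX : ContDiff ℝ 2 X) {k : ℕ}
    (hH : ∀ y, LineZ X k (0, y) (1, 0)) (hV : ∀ x, LineZ X k (x, 0) (0, 1)) (a b c e : ℝ) :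
    ∫⁻ p in Icc a b ×ˢ Icc c e, (ENNReal.ofReal
      (|wedge (X p) (fderiv ℝ X p (1, 0))| / H709R2.sq (X p)) +
      ENNReal.ofReal (|wedge (X p) (fderiv ℝ X p (0, 1))| / H709R2.sq (X p))) ≤
      ENNReal.ofReal (k * Real.pi) * (ENNReal.ofReal (b - a) + ENNReal.ofReal (e - c)) := by
  rw [lintegral_add_left (measurable_kernel hX _)]
  rw [Measure.volume_eq_prod, ← Measure.prod_restrict]
  have h1 : ∫⁻ p, ENNReal.ofReal (|wedge (X p) (fderiv ℝ X p (1, 0))| / H709R2.sq (X p))
      ∂((volume.restrict (Icc a b)).prod (volume.restrict (Icc c e))) ≤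
      ENNReal.ofReal (k * Real.pi) * ENNReal.ofReal (e - c) := by
    rw [lintegral_prod_symm _ (measurable_kernel hX _).aemeasurable]
    calc ∫⁻ y in Icc c e, ∫⁻ x in Icc a b, ENNReal.ofReal
          (|wedge (X (x, y)) (fderiv ℝ X (x, y) (1, 0))| / H709R2.sq (X (x, y)))
        ≤ ∫⁻ y in Icc c e, ENNReal.ofReal (k * Real.pi) := by
          refine lintegral_mono fun y => ?_
          refine (setLIntegral_le_lintegral _ _).trans ?_
          have h2 := line_gen hX (hH y)
          have h3 : ∀ t : ℝ, ((0:ℝ), y) + t • ((1:ℝ), (0:ℝ)) = (t, y) := by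
            intro t; ext <;> simp
          simp only [h3] at h2
          exact h2
      _ = ENNReal.ofReal (k * Real.pi) * ENNReal.ofReal (e - c) := by
          rw [lintegral_const, Measure.restrict_apply_univ, Real.volume_Icc]
  have h2 : ∫⁻ p, ENNReal.ofReal (|wedge (X p) (fderiv ℝ X p (0, 1))| / H709R2.sq (X p))
      ∂((volume.restrict (Icc a b)).prod (volume.restrict (Icc c e))) ≤
      ENNReal.ofReal (k * Real.pi) * ENNReal.ofReal (b - a) := by
    rw [lintegral_prod _ (measurable_kernel hX _).aemeasurable]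
    calc ∫⁻ x in Icc a b, ∫⁻ y in Icc c e, ENNReal.ofReal
          (|wedge (X (x, y)) (fderiv ℝ X (x, y) (0, 1))| / H709R2.sq (X (x, y)))
        ≤ ∫⁻ x in Icc a b, ENNReal.ofReal (k * Real.pi) := by
          refine lintegral_mono fun x => ?_
          refine (setLIntegral_le_lintegral _ _).trans ?_
          have h2 := line_gen hX (hV x)
          have h3 : ∀ t : ℝ, (x, (0:ℝ)) + t • ((0:ℝ), (1:ℝ)) = (x, t) := by
            intro t; ext <;> simp
          simp only [h3] at h2
          exact h2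
      _ = ENNReal.ofReal (k * Real.pi) * ENNReal.ofReal (b - a) := by
          rw [lintegral_const, Measure.restrict_apply_univ, Real.volume_Icc]
  calc _ ≤ ENNReal.ofReal (k * Real.pi) * ENNReal.ofReal (e - c) +
        ENNReal.ofReal (k * Real.pi) * ENNReal.ofReal (b - a) := add_le_add h1 h2
    _ = _ := by rw [← mul_add, add_comm (ENNReal.ofReal (e - c))]

end Pool.Agent.TH275.LF
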