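import Pool.Agent.H709U.TopR
import Pool.Agent.H709U.TopG
import Pool.Agent.H709R2.ThmA
import Pool.Agent.TH275.LF.Rect

/-! Averaged bounds for the closed orbits of plane fields whose direction turns a bounded number of
times along every line. -/

open Real Set MeasureTheory Topology Filter
open scoped ENNReal

namespace Pool.Agent.TH275.LF

noncomputable section

open Pool.Agent Pool.Agent.H709R2
open Pool.Agent.H709Q (Maj)

/-- `LC X k`: the field `X` is `C²`, and along every line every nontrivial linear combination of its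
components vanishes identically or at most `k` times -/
structure LC (X : ℝ × ℝ → ℝ × ℝ) (k : ℕ) : Prop where
  smooth : ContDiff ℝ 2 X
  line : ∀ p v : ℝ × ℝ, LineZ X k p v

/-- big closed orbits in a rectangle -/
theorem thmAX {F : ℝ × ℝ → ℝ × ℝ} {k : ℕ} (hLC : LC F k) (a b c e : ℝ) {d : ℝ} (hd : 0 < d) :
    ∃ g : ℝ → ℝ≥0∞, Measurable g ∧
      (∀ α ∈ Ioo 0 π, ({C : Set (ℝ × ℝ) | (∃ γ : ℝ → ℝ × ℝ, ∃ T : ℝ, 0 < T ∧
          (∀ t, HasDerivAt γ (rot α (F (γ t))) t) ∧ (∀ t, γ (t + T) = γ t) ∧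
          (∃ s t, γ s ≠ γ t) ∧ C = range γ) ∧ C ⊆ Icc a b ×ˢ Icc c e ∧
          ∃ p ∈ C, ∃ q ∈ C, d ≤ √((p.1 - q.1) ^ 2 + (p.2 - q.2) ^ 2)}.encard : ℝ≥0∞) ≤ g α) ∧
      ∫⁻ α, g α ≤ ENNReal.ofReal (1 / (2 * d)) *
        (ENNReal.ofReal (k * π) * (ENNReal.ofReal (b - a) + ENNReal.ofReal (e - c))) := by
  have hF : ContDiff ℝ 2 F := hLC.smooth
  set Ω : Set (ℝ × ℝ) := Icc a b ×ˢ Icc c e with hΩdef
  have hΩc : IsCompact Ω := isCompact_Icc.prod isCompact_Icc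
  obtain ⟨R, hR⟩ := hΩc.isBounded.exists_norm_le
  obtain ⟨X, hX, ⟨K, hK⟩, ⟨M, hM⟩, hXF⟩ := exists_cutoff hF R
  obtain ⟨φ, hφ⟩ := exists_rotFlow hX hK hM
  set h : ℝ × ℝ → ℝ≥0∞ := fun p => ENNReal.ofReal
      (|wedge (F p) (fderiv ℝ F p (1, 0))| / H709R2.sq (F p)) +
      ENNReal.ofReal (|wedge (F p) (fderiv ℝ F p (0, 1))| / H709R2.sq (F p)) with hh
  have hhm : Measurable h := (measurable_kernel hF _).add (measurable_kernel hF _)
  have hw : ∀ p, X p ≠ 0 → ContDiffAt ℝ 1 (winv X) p := fun p hp => contDiffAt_winv hX hp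
  obtain ⟨g, hg1, hg2, hg3⟩ := master (w₁ := winv X) (w := winv X) (M := Ici (2 * d)) (ℓ := 2 * d)
    (Ω := Ω) hφ hX hw hw hΩc.isClosed measurableSet_Ici hhm (by positivity) (by
      intro α hα p T hmp hpΩ hlen
      refine ⟨hlen, ?_⟩
      have hp : p ∈ Ω := by
        have := hpΩ 0
        rwa [hφ.zero] at this
      have heq := hXF p (hR p hp)
      have h1 := abs_divW_winv_le hX hmp.ne α
      rw [heq.fderiv_eq, heq.eq_of_nhds] at h1
      simp only [hh]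
      rw [← ENNReal.ofReal_add (by unfold H709R2.sq; positivity) (by unfold H709R2.sq; positivity)]
      exact ENNReal.ofReal_le_ofReal h1)
  refine ⟨g, hg1, ?_, hg3.trans ?_⟩
  · intro α hα
    refine le_trans ?_ (hg2 α hα)
    have hsub : {C : Set (ℝ × ℝ) | (∃ γ : ℝ → ℝ × ℝ, ∃ T : ℝ, 0 < T ∧
          (∀ t, HasDerivAt γ (rot α (F (γ t))) t) ∧ (∀ t, γ (t + T) = γ t) ∧
          (∃ s t, γ s ≠ γ t) ∧ C = range γ) ∧ C ⊆ Ω ∧
          ∃ p ∈ C, ∃ q ∈ C, d ≤ √((p.1 - q.1) ^ 2 + (p.2 - q.2) ^ 2)} ⊆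
        {C | Good X φ (winv X) Ω (Ici (2 * d)) α C} := by
      rintro C ⟨⟨γ, T, hT, hγ, hper, hnc, rfl⟩, hCΩ, q, hq, q', hq', hdist⟩
      have hγ' : ∀ t, HasDerivAt γ (rot α (X (γ t))) t := by
        intro t
        rw [(hXF (γ t) (hR _ (hCΩ ⟨t, rfl⟩))).eq_of_nhds]
        exact hγ t
      obtain ⟨T₀, hmp, hrange⟩ := minPer_of_closed hφ hT hγ' hper hnc
      refine ⟨γ 0, T₀, hmp, hrange, hCΩ, ?_⟩
      rw [hrange] at hq hq'
      have h1 := len_ge hφ hX.continuous hmp hq hq'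
      rw [mem_Ici]
      refine le_trans ?_ h1
      unfold H709R2.sq
      simp only [Prod.fst_sub, Prod.snd_sub]
      linarith
    exact ENat.toENNReal_le.2 (Set.encard_le_encard hsub)
  · gcongr
    exact rect_gen hF (fun y => hLC.line _ _) (fun x => hLC.line _ _) a b c e


end

end Pool.Agent.TH275.LF
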