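import Pool.Agent.H709L.K2
import Pool.Agent.H709L.K3
import Pool.Agent.H709L.S
import Pool.Agent.H709L.OE
import Pool.Agent.H709L.H4

/-! Lienard systems: the classes of small and of captured closed orbits, in terms of the variation
of the direction of the field instead of the degree. -/

open Real Set MeasureTheory Topology Filter
open scoped ENNReal

namespace Pool.Agent.TH275.LF

open Pool.Agent Pool.Agent.H709L Pool.Agent.H709L.K2
open Pool.Agent.H709R2 (wedge field ClosedOrbit)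

/-- variation of `p - f x` on intervals -/
def HV (p : Polynomial ℝ) (n : ℕ) : Prop := ∀ f M a b : ℝ, a ≤ b →
  (∀ x ∈ Icc a b, |(p - Polynomial.C f * Polynomial.X).eval x| ≤ M) →
  ∫ x in a..b, |(p - Polynomial.C f * Polynomial.X).derivative.eval x| ≤ 2 * n * M

/-- variation of the direction of the Lienard field over rectangles -/
def HR (p : Polynomial ℝ) (n : ℕ) : Prop := ∀ a b c e : ℝ,
  ∫⁻ z in Icc a b ×ˢ Icc c e, (ENNReal.ofReal (kx p z) + ENNReal.ofReal (ky p z)) ≤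
    ENNReal.ofReal (n * π) * (ENNReal.ofReal (b - a) + ENNReal.ofReal (e - c))

theorem mainP (p : Polynomial ℝ) (n : ℕ) (hR : HR p n) (hn : 1 ≤ n) (i : ℤ) (σ : ℝ)
    (hσ : σ = 1 ∨ σ = -1) {c e : ℝ} (hce : e - c = 5 / 2 * (2:ℝ) ^ i)
    (hI : ∀ y, 1 / 2 ≤ σ * y / (2:ℝ) ^ i ∧ σ * y / (2:ℝ) ^ i ≤ 3 → y ∈ Icc c e) :
    ∫⁻ z, ENNReal.ofReal (2 * (|fderiv ℝ (chi i σ) z (1, 0)| + |fderiv ℝ (chi i σ) z (0, 1)|) +
      2 * chi i σ z * (kx p z + ky p z)) ≤ ENNReal.ofReal (400 * n * (2:ℝ) ^ i) := by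
  set h := (2:ℝ) ^ i with hh
  set ρ := (2:ℝ) ^ (i + 3) with hρ
  have hh0 : 0 < h := by positivity
  have hρh : ρ = 8 * h := by
    rw [hρ, hh, zpow_add₀ (by norm_num)]
    norm_num
    ring
  have hρ0 : 0 < ρ := by positivity
  have hcele : c ≤ e := by
    have : 0 < 5 / 2 * h := by positivity
    linarith
  have hlf : ContDiff ℝ 2 (lf p 0) := by
    rw [lf_field p]; exact H709R2.contDiff_field _ _
  have hmx : Measurable fun z => ENNReal.ofReal (kx p z) := H709R2.measurable_kernel hlf (1, 0)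
  have hmy : Measurable fun z => ENNReal.ofReal (ky p z) := H709R2.measurable_kernel hlf (0, 1)
  have hkx : ∀ z, 0 ≤ kx p z := fun z => by
    unfold kx
    apply div_nonneg (abs_nonneg _)
    unfold H709R2.sq; positivity
  have hky : ∀ z, 0 ≤ ky p z := fun z => by
    unfold ky
    apply div_nonneg (abs_nonneg _)
    unfold H709R2.sq; positivity
  set Rc : Set (ℝ × ℝ) := Icc (-(2 * ρ)) (2 * ρ) ×ˢ Icc c e with hRc
  have hRm : MeasurableSet Rc := measurableSet_Icc.prod measurableSet_Icc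
  set g : ℝ × ℝ → ℝ≥0∞ := fun z => (ENNReal.ofReal |A' ρ z.1| * 2 + ENNReal.ofReal |B' h σ z.2| * 2) +
    2 * (ENNReal.ofReal (kx p z) + ENNReal.ofReal (ky p z)) with hg
  have hle : ∀ z, ENNReal.ofReal (2 * (|fderiv ℝ (chi i σ) z (1, 0)| +
      |fderiv ℝ (chi i σ) z (0, 1)|) + 2 * chi i σ z * (kx p z + ky p z)) ≤ Rc.indicator g z := by
    intro z
    rw [chi_dx, chi_dy, chi_eq, ← hρ, ← hh]
    by_cases hz : z ∈ Rc
    · rw [indicator_of_mem hz, hg]
      have e1 : ENNReal.ofReal |A' ρ z.1| * 2 + ENNReal.ofReal |B' h σ z.2| * 2 +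
          2 * (ENNReal.ofReal (kx p z) + ENNReal.ofReal (ky p z)) =
          ENNReal.ofReal (|A' ρ z.1| * 2 + |B' h σ z.2| * 2 + 2 * (kx p z + ky p z)) := by
        have h2 : (2:ℝ≥0∞) = ENNReal.ofReal 2 := by simp
        rw [h2, ← ENNReal.ofReal_mul (abs_nonneg _), ← ENNReal.ofReal_mul (abs_nonneg _),
          ← ENNReal.ofReal_add (hkx z) (hky z), ← ENNReal.ofReal_mul (by norm_num),
          ← ENNReal.ofReal_add (by positivity) (by positivity),
          ← ENNReal.ofReal_add (by positivity) (by have := hkx z; have := hky z; positivity)]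
      change _ ≤ ENNReal.ofReal |A' ρ z.1| * 2 + ENNReal.ofReal |B' h σ z.2| * 2 +
          2 * (ENNReal.ofReal (kx p z) + ENNReal.ofReal (ky p z))
      rw [e1]
      apply ENNReal.ofReal_le_ofReal
      have b1 : |B h σ z.2 * A' ρ z.1| ≤ |A' ρ z.1| := by
        rw [abs_mul, abs_of_nonneg (B_nonneg h σ z.2)]
        exact mul_le_of_le_one_left (abs_nonneg _) (B_le h σ z.2)
      have b2 : |bumpX ρ z.1 * B' h σ z.2| ≤ |B' h σ z.2| := by
        rw [abs_mul, abs_of_nonneg (A_nonneg ρ z.1)]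
        exact mul_le_of_le_one_left (abs_nonneg _) (A_le ρ z.1)
      have b3 : 2 * (bumpX ρ z.1 * B h σ z.2) * (kx p z + ky p z) ≤ 2 * (kx p z + ky p z) := by
        apply mul_le_mul_of_nonneg_right _ (add_nonneg (hkx z) (hky z))
        have := mul_le_one₀ (A_le ρ z.1) (B_nonneg h σ z.2) (B_le h σ z.2)
        linarith
      linarith
    · rw [indicator_of_notMem hz]
      have hz' : z.1 ∉ Icc (-(2 * ρ)) (2 * ρ) ∨ z.2 ∉ Icc c e := by
        rw [hRc, mem_prod, not_and_or] at hz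
        exact hz
      rcases hz' with hz | hz
      · have h1 : bumpX ρ z.1 = 0 := by
          apply Real.smoothTransition.zero_of_nonpos
          have : 4 ≤ (z.1 / ρ) ^ 2 := by
            rw [div_pow, le_div_iff₀ (by positivity)]
            rw [mem_Icc, not_and_or, not_le, not_le] at hz
            rcases hz with h | h <;> nlinarith
          linarith
        rw [h1, A'_zero hρ0 hz]
        simp
      · have hz2 : ¬ (1 / 2 ≤ σ * z.2 / h ∧ σ * z.2 / h ≤ 3) := fun h => hz (hI _ h)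
        rw [B_zero hz2, B'_zero hz2]
        simp
  refine (lintegral_mono hle).trans ?_
  rw [lintegral_indicator hRm]
  have hmA : Measurable fun z : ℝ × ℝ => ENNReal.ofReal |A' ρ z.1| * 2 :=
    ((((A'_cont ρ).comp continuous_fst).abs.measurable).ennreal_ofReal).mul_const _
  have hmB : Measurable fun z : ℝ × ℝ => ENNReal.ofReal |B' h σ z.2| * 2 :=
    ((((B'_cont h σ).comp continuous_snd).abs.measurable).ennreal_ofReal).mul_const _
  have hsplit : ∫⁻ z in Rc, g z = (∫⁻ z in Rc, ENNReal.ofReal |A' ρ z.1| * 2) +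
      (∫⁻ z in Rc, ENNReal.ofReal |B' h σ z.2| * 2) +
      2 * ∫⁻ z in Rc, (ENNReal.ofReal (kx p z) + ENNReal.ofReal (ky p z)) := by
    rw [hg, lintegral_add_left (f := fun z : ℝ × ℝ => ENNReal.ofReal |A' ρ z.1| * 2 +
      ENNReal.ofReal |B' h σ z.2| * 2) (hmA.add hmB), lintegral_add_left hmA,
      lintegral_const_mul (f := fun z : ℝ × ℝ => ENNReal.ofReal (kx p z) + ENNReal.ofReal (ky p z))
        _ (hmx.add hmy)]
  rw [hsplit]
  have hrestr : (volume : Measure (ℝ × ℝ)).restrict Rc =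
      (volume.restrict (Icc (-(2 * ρ)) (2 * ρ))).prod (volume.restrict (Icc c e)) := by
    rw [hRc, Measure.volume_eq_prod, ← Measure.prod_restrict]
  have i1 : ∫⁻ z in Rc, ENNReal.ofReal |A' ρ z.1| * 2 ≤ ENNReal.ofReal (10 * h) := by
    rw [hrestr]
    have hm1 : Measurable fun x => ENNReal.ofReal |A' ρ x| :=
      (A'_cont ρ).abs.measurable.ennreal_ofReal
    have := lintegral_prod_mul (μ := volume.restrict (Icc (-(2 * ρ)) (2 * ρ)))
      (ν := volume.restrict (Icc c e)) (f := fun x => ENNReal.ofReal |A' ρ x|)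
      (g := fun _ => (2:ℝ≥0∞)) hm1.aemeasurable aemeasurable_const
    rw [this, lintegral_const, Measure.restrict_apply MeasurableSet.univ, univ_inter,
      Real.volume_Icc, hce]
    calc _ ≤ 2 * (2 * ENNReal.ofReal (5 / 2 * h)) := by
          gcongr
          exact A_tv hρ0
      _ = ENNReal.ofReal (10 * h) := by
          have h2 : (2:ℝ≥0∞) = ENNReal.ofReal 2 := by simp
          rw [h2, ← ENNReal.ofReal_mul (by norm_num), ← ENNReal.ofReal_mul (by norm_num)]
          congr 1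
          ring
  have i2 : ∫⁻ z in Rc, ENNReal.ofReal |B' h σ z.2| * 2 ≤ ENNReal.ofReal (128 * h) := by
    rw [hrestr]
    have hm1 : Measurable fun x => ENNReal.ofReal |B' h σ x| :=
      (B'_cont h σ).abs.measurable.ennreal_ofReal
    have := lintegral_prod_mul (μ := volume.restrict (Icc (-(2 * ρ)) (2 * ρ)))
      (ν := volume.restrict (Icc c e)) (f := fun _ => (2:ℝ≥0∞))
      (g := fun x => ENNReal.ofReal |B' h σ x|) aemeasurable_const hm1.aemeasurable
    have e1 : ∫⁻ z, ENNReal.ofReal |B' h σ z.2| * 2 ∂((volume.restrict (Icc (-(2 * ρ)) (2 * ρ))).prod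
        (volume.restrict (Icc c e))) = ∫⁻ z, 2 * ENNReal.ofReal |B' h σ z.2|
        ∂((volume.restrict (Icc (-(2 * ρ)) (2 * ρ))).prod (volume.restrict (Icc c e))) := by
      congr 1
      funext z
      rw [mul_comm]
    rw [e1, this, lintegral_const, Measure.restrict_apply MeasurableSet.univ, univ_inter,
      Real.volume_Icc]
    calc _ ≤ (2 * ENNReal.ofReal (2 * ρ - -(2 * ρ))) * 2 := by
          gcongr
          exact B_tv hh0 hσ hcele
      _ = ENNReal.ofReal (128 * h) := by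
          have h2 : (2:ℝ≥0∞) = ENNReal.ofReal 2 := by simp
          rw [h2, ← ENNReal.ofReal_mul (by norm_num), ← ENNReal.ofReal_mul (by linarith)]
          congr 1
          rw [hρh]
          ring
  have i3 := hR (-(2 * ρ)) (2 * ρ) c e
  rw [hce, ← ENNReal.ofReal_add (by linarith) (by positivity),
    ← ENNReal.ofReal_mul (by positivity)] at i3
  calc _ ≤ ENNReal.ofReal (10 * h) + ENNReal.ofReal (128 * h) + 2 * ENNReal.ofReal (n * π *
        (2 * ρ - -(2 * ρ) + 5 / 2 * h)) := add_le_add (add_le_add i1 i2) (by gcongr)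
    _ = ENNReal.ofReal (10 * h + 128 * h + 2 * (n * π * (2 * ρ - -(2 * ρ) + 5 / 2 * h))) := by
        have h2 : (2:ℝ≥0∞) = ENNReal.ofReal 2 := by simp
        have h3 : 0 ≤ 2 * ρ - -(2 * ρ) + 5 / 2 * h := by linarith
        rw [h2, ← ENNReal.ofReal_mul (by norm_num), ← ENNReal.ofReal_add (by positivity)
          (by positivity), ← ENNReal.ofReal_add (by positivity) (by positivity)]
    _ ≤ ENNReal.ofReal (400 * n * h) := by
        apply ENNReal.ofReal_le_ofReal
        rw [hρh]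
        have hn1 : (1:ℝ) ≤ n := by exact_mod_cast hn
        have hpi : π ≤ 3.15 := Real.pi_lt_d2.le
        have h1 : (n:ℝ) * π * h ≤ n * 3.15 * h := by gcongr
        have h2 : h ≤ n * h := by nlinarith
        nlinarith

theorem boxCostP (p : Polynomial ℝ) (n : ℕ) (hR : HR p n) (hn : 1 ≤ n) (i : ℤ) (σ : ℝ)
    (hσ : σ = 1 ∨ σ = -1) :
    ∫⁻ z, ENNReal.ofReal (2 * (|fderiv ℝ (chi i σ) z (1, 0)| + |fderiv ℝ (chi i σ) z (0, 1)|) +
      2 * chi i σ z * (kx p z + ky p z)) ≤ ENNReal.ofReal (400 * n * (2:ℝ) ^ i) := by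
  have hh0 : (0:ℝ) < (2:ℝ) ^ i := by positivity
  rcases hσ with rfl | rfl
  · refine mainP p n hR hn i 1 (Or.inl rfl) (c := (2:ℝ) ^ i / 2) (e := 3 * (2:ℝ) ^ i) (by ring) ?_
    intro y hy
    rw [one_mul, le_div_iff₀ hh0, div_le_iff₀ hh0] at hy
    exact ⟨by linarith [hy.1], hy.2⟩
  · refine mainP p n hR hn i (-1) (Or.inr rfl) (c := -(3 * (2:ℝ) ^ i)) (e := -((2:ℝ) ^ i / 2))
      (by ring) ?_
    intro y hy
    rw [le_div_iff₀ hh0, div_le_iff₀ hh0] at hy
    exact ⟨by linarith [hy.2], by linarith [hy.1]⟩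

theorem boxClassP (hM : MasterL) (hData : Data) (hB : BoxLen) (hP : PointBound) (hX : Exhaust)
    (p : Polynomial ℝ) (n : ℕ) (hR : HR p n) (hp0 : p.eval 0 = 0) (hn : 1 ≤ n) (i : ℤ) (σ : ℝ)
    (hσ : σ = 1 ∨ σ = -1) : MajI (fun s => ((Capt p s i σ).encard : ℝ≥0∞)) (7200 * n) := by
  have hpi : (0:ℝ) < (2:ℝ) ^ i := zpow_pos (by norm_num) _
  have hi1 : (2:ℝ) ^ (i + 1) = 2 * (2:ℝ) ^ i := by
    rw [zpow_add₀ (by norm_num)]; norm_num; ring
  have hi3 : (2:ℝ) ^ (i + 3) = 8 * (2:ℝ) ^ i := by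
    rw [zpow_add₀ (by norm_num)]; norm_num; ring
  -- the exhaustion
  have hred := hX p (fun s C => C ∈ Capt p s i σ) (7200 * n) ?_
  · obtain ⟨g, hg1, hg2, hg3⟩ := hred
    refine ⟨g, hg1, fun s hs => ?_, hg3⟩
    refine le_trans ?_ (hg2 s hs)
    have : Capt p s i σ ⊆ {C | C ∈ LOrb p s ∧ C ∈ Capt p s i σ} := by
      intro C hC
      refine ⟨?_, hC⟩
      obtain ⟨γ, T, _, _, _, _, h1, _, h3, _⟩ := hC
      exact ⟨γ, T, h1, h3⟩
    exact ENat.toENNReal_le.2 (encard_le_encard this)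
  intro m
  set w : ℝ × ℝ → ℝ := fun z => chi i σ z / √(H709R2.sq (lf p 0 z)) with hw
  set hh : ℝ × ℝ → ℝ≥0∞ := fun z =>
    ENNReal.ofReal (2 * (|fderiv ℝ (chi i σ) z (1, 0)| + |fderiv ℝ (chi i σ) z (0, 1)|) +
      2 * chi i σ z * (kx p z + ky p z)) with hhh
  have hmas := hM p (Sq m) w hh (400 * n * (2:ℝ) ^ i) ((2:ℝ) ^ i / 18) hp0 (K3.isCompact_Sq _) ?_ ?_
    (by positivity) (by positivity) ?_ ?_
  · have hK : 400 * (n:ℝ) * (2:ℝ) ^ i / ((2:ℝ) ^ i / 18) = 7200 * n := by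
      field_simp
      ring
    rw [hK] at hmas
    obtain ⟨g, hg1, hg2, hg3⟩ := hmas
    refine ⟨g, hg1, fun s hs => ?_, hg3⟩
    refine le_trans ?_ (hg2 s hs)
    have hsub : {C | C ∈ LOrb p s ∧ C ∈ Capt p s i σ ∧ C ⊆ Sq m} ⊆
        Kl p s w (Sq m) ((2:ℝ) ^ i / 18) := by
      rintro C ⟨-, hCap, hCs⟩
      obtain ⟨γ, T, y₁, y₀, R, L, h1, h2, h3, h4, h5⟩ := hCap
      refine ⟨γ, T, h1, h3, hCs, ?_⟩
      have habs : |s| < 1 := abs_lt.2 ⟨hs.1, hs.2⟩
      rcases h4 with ⟨hσ1, hy⟩ | ⟨hσ1, hy⟩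
      · have hb := hB p s γ T y₁ y₀ R L ((2:ℝ) ^ (i + 3)) ((2:ℝ) ^ i) ((2:ℝ) ^ (i + 1)) (chi i σ)
          hp0 habs h2 (by positivity) (by rw [hi1]; linarith) (h2.neg.trans hpi) hy
          (fun y hy' => h5 y ⟨by linarith [h2.neg, hy'.1], by linarith [hy'.2]⟩
            (by rw [hσ1, one_mul]; exact hy'.1) (by rw [hσ1, one_mul]; exact hy'.2))
          (K3.contDiff_chi i σ).continuous (K3.chi_nonneg i σ)
          (fun z hz0 hz1 hz2 => K3.chi_eq_one i σ z hz0 hz1 (by rw [hσ1, one_mul]; exact hz2.1)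
            (by rw [hσ1, one_mul]; exact hz2.2))
        refine le_trans (le_of_eq ?_) hb
        rw [hi1, hi3]
        field_simp
        ring
      · have hb := hB p s γ T y₁ y₀ R L ((2:ℝ) ^ (i + 3)) (-(2:ℝ) ^ (i + 1)) (-(2:ℝ) ^ i) (chi i σ)
          hp0 habs h2 (by positivity) (by rw [hi1]; linarith) hy (by linarith [h2.pos])
          (fun y hy' => h5 y ⟨by linarith [hy'.1], by linarith [h2.pos, hy'.2]⟩
            (by rw [hσ1]; linarith [hy'.2]) (by rw [hσ1]; linarith [hy'.1]))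
          (K3.contDiff_chi i σ).continuous (K3.chi_nonneg i σ)
          (fun z hz0 hz1 hz2 => K3.chi_eq_one i σ z hz0 hz1 (by rw [hσ1]; linarith [hz2.2])
            (by rw [hσ1]; linarith [hz2.1]))
        refine le_trans (le_of_eq ?_) hb
        rw [hi1, hi3]
        field_simp
        ring
    exact ENat.toENNReal_le.2 (encard_le_encard hsub)
  · intro z hz
    have h1 : ContDiff ℝ 1 (fun z => H709R2.sq (lf p 0 z)) := by
      unfold H709R2.sq
      have := (K3.contDiff_lf p 0).of_le (show (1 : WithTop ℕ∞) ≤ 2 by norm_num)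
      exact ((contDiff_fst.comp this).pow 2).add ((contDiff_snd.comp this).pow 2)
    have h2 := K3.sq_lf_pos hp0 hz
    exact (((K3.contDiff_chi i σ).of_le (by norm_num)).contDiffAt).div
      ((h1.contDiffAt).sqrt h2.ne') (Real.sqrt_pos.2 h2).ne'
  · have hc : ∀ v : ℝ × ℝ, Continuous fun z => fderiv ℝ (chi i σ) z v := fun v =>
      ((K3.contDiff_chi i σ).continuous_fderiv (by norm_num)).clm_apply continuous_const
    have hk : ∀ v : ℝ × ℝ, Measurable fun z =>
        |wedge (lf p 0 z) (fderiv ℝ (lf p 0) z v)| / H709R2.sq (lf p 0 z) := by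
      intro v
      have h1 : Continuous fun z => fderiv ℝ (lf p 0) z v :=
        ((K3.contDiff_lf p 0).continuous_fderiv (by norm_num)).clm_apply continuous_const
      have h0 : Continuous (lf p 0) := (K3.contDiff_lf p 0).continuous
      have h2 : Continuous fun z => wedge (lf p 0 z) (fderiv ℝ (lf p 0) z v) := by
        unfold wedge
        fun_prop
      have h3 : Continuous fun z => H709R2.sq (lf p 0 z) := by
        unfold H709R2.sq
        fun_prop
      exact h2.abs.measurable.div h3.measurable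
    refine Measurable.ennreal_ofReal ?_
    refine Measurable.add ?_ ?_
    · exact (((hc (1, 0)).abs.add (hc (0, 1)).abs).measurable).const_mul 2
    · exact (((K3.contDiff_chi i σ).continuous.measurable).const_mul 2).mul
        ((hk (1, 0)).add (hk (0, 1)))
  · exact (setLIntegral_le_lintegral _ _).trans (boxCostP p n hR hn i σ hσ)
  · intro s hs γ T hγ _ t
    have hz : γ t ≠ 0 := hγ.ne t
    refine ENNReal.ofReal_le_ofReal ?_
    exact hP p (chi i σ) (γ t) s hp0 hz (((K3.contDiff_chi i σ).differentiable (by norm_num)) _)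
      (abs_lt.2 ⟨hs.1, hs.2⟩) (K3.chi_nonneg i σ _)

lemma small_costP (p : Polynomial ℝ) (n : ℕ) (hV : HV p n) (f κ ρ : ℝ)
    (hn : 1 ≤ n) (hκ : 0 ≤ κ) (hρ : 0 < ρ)
    (hp : ∀ x, |x| ≤ ρ → |p.eval x - f * x| ≤ κ * |x|) :
    ∫⁻ z in Sq ρ, ENNReal.ofReal (|p.derivative.eval (z : ℝ × ℝ).1 - f| + κ) ≤
      ENNReal.ofReal (4 * (n + 1) * κ * ρ ^ 2) := by
  have hcont : Continuous (fun x : ℝ => |p.derivative.eval x - f| + κ) := by fun_prop
  have h1 : ∫⁻ z in Sq ρ, ENNReal.ofReal (|p.derivative.eval (z : ℝ × ℝ).1 - f| + κ) =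
      (∫⁻ x in Icc (-ρ) ρ, ENNReal.ofReal (|p.derivative.eval x - f| + κ)) *
        ∫⁻ _ in Icc (-ρ) ρ, (1 : ℝ≥0∞) := by
    rw [H709L.Sq_eq, Measure.volume_eq_prod, ← Measure.prod_restrict,
      ← lintegral_prod_mul (f := fun x : ℝ => ENNReal.ofReal (|p.derivative.eval x - f| + κ))
        (g := fun _ : ℝ => (1 : ℝ≥0∞)) (by fun_prop) (by fun_prop)]
    simp only [mul_one]
  have hint : ∀ g : ℝ → ℝ, Continuous g → IntervalIntegrable g volume (-ρ) ρ :=
    fun g hg => hg.intervalIntegrable _ _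
  have h2 : ∫⁻ x in Icc (-ρ) ρ, ENNReal.ofReal (|p.derivative.eval x - f| + κ) =
      ENNReal.ofReal (∫ x in (-ρ)..ρ, (|p.derivative.eval x - f| + κ)) := by
    rw [intervalIntegral.integral_of_le (by linarith), ← integral_Icc_eq_integral_Ioc,
      ofReal_integral_eq_lintegral_ofReal (hcont.integrableOn_Icc)
        (Eventually.of_forall fun x => by positivity)]
  have h3 : ∫ x in (-ρ)..ρ, (|p.derivative.eval x - f| + κ) =
      (∫ x in (-ρ)..ρ, |p.derivative.eval x - f|) + 2 * ρ * κ := by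
    rw [intervalIntegral.integral_add (hint _ (by fun_prop)) (hint _ (by fun_prop)),
      intervalIntegral.integral_const]
    simp only [smul_eq_mul]
    ring
  have h4 : ∫ x in (-ρ)..ρ, |p.derivative.eval x - f| ≤ 2 * n * (κ * ρ) := by
    have h5 := hV f (κ * ρ) (-ρ) ρ (by linarith) ?_
    · simpa using h5
    · intro x hx
      have hx' : |x| ≤ ρ := abs_le.2 hx
      have := hp x hx'
      simp only [Polynomial.eval_sub, Polynomial.eval_mul, Polynomial.eval_C, Polynomial.eval_X]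
      exact this.trans (mul_le_mul_of_nonneg_left hx' hκ)
  have h6 : ∫⁻ _ in Icc (-ρ) ρ, (1 : ℝ≥0∞) = ENNReal.ofReal (2 * ρ) := by
    rw [lintegral_one, Measure.restrict_apply_univ, Real.volume_Icc]
    congr 1
    ring
  rw [h1, h2, h6, ← ENNReal.ofReal_mul' (by positivity), h3]
  refine ENNReal.ofReal_le_ofReal ?_
  have h7 : (∫ x in (-ρ)..ρ, |p.derivative.eval x - f|) + 2 * ρ * κ ≤
      2 * (n + 1) * κ * ρ := by
    calc _ ≤ 2 * n * (κ * ρ) + 2 * ρ * κ := by linarith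
      _ = _ := by ring
  calc _ ≤ 2 * (n + 1) * κ * ρ * (2 * ρ) := mul_le_mul_of_nonneg_right h7 (by positivity)
    _ = _ := by ring

theorem smallClassP (hM : MasterL) (hD : Data) (hS : SmallLen) (hWin : Window)
    (p : Polynomial ℝ) (n : ℕ) (hV : HV p n) (f κ ρ : ℝ) (hp0 : p.eval 0 = 0) (hn : 1 ≤ n)
    (hκ : 0 ≤ κ) (hκ2 : κ ≤ 1 / 64) (hρ : 0 < ρ)
    (hp : ∀ x, |x| ≤ ρ → |p.eval x - f * x| ≤ κ * |x|) :
    MajI (fun s => ({C | C ∈ LOrb p s ∧ C ⊆ Sq ρ ∧ ∃ z ∈ C, ∃ z' ∈ C, ρ / 2 < z.2 - z'.2}.encard :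
      ℝ≥0∞)) (128 * (n + 1) * κ) := by
  have key := hM p (Sq ρ) (fun _ => 1)
    (fun z => ENNReal.ofReal (|p.derivative.eval z.1 - f| + κ))
    (4 * (n + 1) * κ * ρ ^ 2) (ρ ^ 2 / 32) hp0 (H709L.isCompact_Sq ρ) (fun z _ => contDiffAt_const)
    (by
      refine ENNReal.measurable_ofReal.comp (Continuous.measurable ?_)
      fun_prop) (by positivity) (by positivity)
    (small_costP p n hV f κ ρ hn hκ hρ hp) ?_
  · refine majRulesI.1 _ _ _ _ (fun s hs => ?_) ?_ key
    · have hsub : {C | C ∈ LOrb p s ∧ C ⊆ Sq ρ ∧ ∃ z ∈ C, ∃ z' ∈ C, ρ / 2 < z.2 - z'.2} ⊆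
          Kl p s (fun _ => 1) (Sq ρ) (ρ ^ 2 / 32) := by
        rintro C ⟨⟨γ, T, hγ, rfl⟩, hC, z, hz, z', hz', hzz⟩
        refine ⟨γ, T, hγ, rfl, hC, ?_⟩
        obtain ⟨y₁, y₀, R, L, hLD⟩ := hD p s γ T hp0 hγ
        have hrng := hLD.rng
        have hz2 : z.2 ≤ y₀ := by
          rw [hrng] at hz
          exact hz.1.2
        have hz2' : y₁ ≤ z'.2 := by
          rw [hrng] at hz'
          exact hz'.1.1
        have hwin : |f - s| ≤ κ := by
          refine hWin p s γ T f κ ρ hγ (fun t => ?_) hp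
          exact (hC ⟨t, rfl⟩).1
        have hlen := hS p s γ T y₁ y₀ R L hp0 hLD ?_
        · have h8 : ρ / 2 ≤ y₀ - y₁ := by linarith
          have h9 : (ρ / 2) ^ 2 ≤ (y₀ - y₁) ^ 2 := pow_le_pow_left₀ (by positivity) h8 2
          calc ρ ^ 2 / 32 = (ρ / 2) ^ 2 / 8 := by ring
            _ ≤ (y₀ - y₁) ^ 2 / 8 := by linarith
            _ ≤ _ := hlen
        · intro y hy
          have hR0 : 0 ≤ R y := by
            rcases hy.1.eq_or_lt with h | h
            · rw [← h, hLD.R1]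
            · rcases hy.2.eq_or_lt with h' | h'
              · rw [h', hLD.R0]
              · exact (hLD.Rp y ⟨h, h'⟩).le
          have hmem : ((R y, y) : ℝ × ℝ) ∈ range γ := by
            rw [hrng]
            exact ⟨hy, Or.inl rfl⟩
          have hRρ : |R y| ≤ ρ := (hC hmem).1
          have h10 := hp (R y) hRρ
          rw [abs_of_nonneg hR0] at h10
          have h11 : |p.eval (R y) - s * R y| ≤ |p.eval (R y) - f * R y| + |(f - s) * R y| := by
            have : p.eval (R y) - s * R y = (p.eval (R y) - f * R y) + (f - s) * R y := by ring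
            rw [this]
            exact abs_add_le _ _
          rw [abs_mul, abs_of_nonneg hR0] at h11
          have h12 : |f - s| * R y ≤ κ * R y := mul_le_mul_of_nonneg_right hwin hR0
          have h13 : κ * R y ≤ 1 / 64 * R y := mul_le_mul_of_nonneg_right hκ2 hR0
          linarith
      have h14 := Set.encard_le_encard hsub
      exact_mod_cast h14
    · have : 4 * ((n : ℝ) + 1) * κ * ρ ^ 2 / (ρ ^ 2 / 32) = 128 * (n + 1) * κ := by
        field_simp
        ring
      rw [this]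
  · intro s hs γ T hγ hran t
    refine ENNReal.ofReal_le_ofReal ?_
    have hwin : |f - s| ≤ κ := by
      refine hWin p s γ T f κ ρ hγ (fun t => ?_) hp
      exact (hran ⟨t, rfl⟩).1
    have h1 : dvl p s (fun _ => 1) (γ t) = s - p.derivative.eval (γ t).1 := by
      simp [dvl]
    rw [h1]
    have h2 : s - p.derivative.eval (γ t).1 = -(p.derivative.eval (γ t).1 - f) + -(f - s) := by
      ring
    rw [h2]
    refine (abs_add_le _ _).trans ?_
    rw [abs_neg, abs_neg]
    linarith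

end Pool.Agent.TH275.LF
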