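import Mathlib

/-! The number of distinct real roots of a polynomial with few monomials. -/

open Polynomial

namespace Pool.Agent.TH275.LF

lemma signVar_succ_le (n : ℕ) : ∀ P : ℝ[X], P ≠ 0 → P.support.card ≤ n →
    P.signVariations + 1 ≤ P.support.card := by
  induction n with
  | zero =>
    intro P hP hn
    exfalso
    apply hP
    rw [← support_eq_empty, ← Finset.card_eq_zero]
    omega
  | succ n ih =>
    intro P hP hn
    have hc : P.eraseLead.support.card + 1 = P.support.card := by
      rw [eraseLead_support]
      exact Finset.card_erase_add_one (natDegree_mem_support_of_nonzero hP)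
    by_cases h0 : P.eraseLead = 0
    · have h1 : P.support.card = 1 := by
        rw [← hc, h0]; simp
      obtain ⟨k, x, hx, rfl⟩ := card_support_eq_one.1 h1
      rw [C_mul_X_pow_eq_monomial, signVariations_monomial, support_monomial _ hx]
      simp
    · have h1 := ih P.eraseLead h0 (by omega)
      have h2 := signVariations_le_eraseLead_succ P
      omega

lemma card_pos_roots (P : ℝ[X]) (hP : P ≠ 0) :
    (P.roots.toFinset.filter (fun x => 0 < x)).card + 1 ≤ P.support.card := by
  have h1 : (P.roots.toFinset.filter (fun x => 0 < x)).card ≤ P.roots.countP (0 < ·) := by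
    rw [Multiset.countP_eq_card_filter]
    have : P.roots.toFinset.filter (fun x => 0 < x) = (P.roots.filter (fun x => 0 < x)).toFinset := by
      ext x
      simp only [Finset.mem_filter, Multiset.mem_toFinset, Multiset.mem_filter]
    rw [this]
    exact Multiset.toFinset_card_le _
  have h2 := roots_countP_pos_le_signVariations P
  have h3 := signVar_succ_le _ P hP le_rfl
  omega

lemma coeff_comp_neg (P : ℝ[X]) (k : ℕ) : (P.comp (-X)).coeff k = (-1) ^ k * P.coeff k := by
  induction P using Polynomial.induction_on' with
  | add p q hp hq => rw [add_comp, coeff_add, coeff_add, hp, hq]; ring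
  | monomial n a =>
    have : ((monomial n a).comp (-X) : ℝ[X]) = monomial n ((-1) ^ n * a) := by
      rw [monomial_comp, neg_pow, ← mul_assoc, ← C_mul_X_pow_eq_monomial, C_mul]
      congr 1
      rw [mul_comm]
      congr 1
      simp
    rw [this, coeff_monomial, coeff_monomial]
    split_ifs with h
    · rw [h]
    · simp

lemma support_comp_neg (P : ℝ[X]) : (P.comp (-X)).support = P.support := by
  ext k
  rw [mem_support_iff, mem_support_iff, coeff_comp_neg]
  simp

/-- a nonzero real polynomial with `k` monomials has at most `2 k - 1` distinct real roots -/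
theorem card_roots_le (P : ℝ[X]) (hP : P ≠ 0) :
    P.roots.toFinset.card + 1 ≤ 2 * P.support.card := by
  have hQ : P.comp (-X) ≠ 0 := by
    intro h
    have := support_comp_neg P
    rw [h] at this
    simp only [support_zero] at this
    exact hP (support_eq_empty.1 this.symm)
  have h1 := card_pos_roots P hP
  have h2 := card_pos_roots (P.comp (-X)) hQ
  rw [support_comp_neg] at h2
  have h3 : (P.roots.toFinset.filter (fun x => x < 0)).card ≤
      ((P.comp (-X)).roots.toFinset.filter (fun x => 0 < x)).card := by
    refine Finset.card_le_card_of_injOn (fun x => -x) ?_ ?_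
    · intro x hx
      simp only [Finset.coe_filter, Multiset.mem_toFinset, Set.mem_ofPred_eq] at hx ⊢
      refine ⟨?_, by linarith [hx.2]⟩
      rw [mem_roots hQ, IsRoot, eval_comp]
      have := (mem_roots hP).1 hx.1
      simpa using this
    · intro x _ y _ h
      simpa using h
  have h4 : P.roots.toFinset ⊆ (P.roots.toFinset.filter (fun x => 0 < x)) ∪
      ((P.roots.toFinset.filter (fun x => x < 0)) ∪ {0}) := by
    intro x hx
    rcases lt_trichotomy x 0 with h | h | h
    · simp [hx, h]
    · simp [h]
    · simp [hx, h]
  have h5 := Finset.card_le_card h4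
  have h6 := Finset.card_union_le (P.roots.toFinset.filter (fun x => 0 < x))
    ((P.roots.toFinset.filter (fun x => x < 0)) ∪ {0})
  have h7 := Finset.card_union_le (P.roots.toFinset.filter (fun x => x < 0)) {0}
  rw [Finset.card_singleton] at h7
  omega

end Pool.Agent.TH275.LF
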