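import Pool.Agent.TH275.LF.Scales

/-! The number of dyadic scales on which a polynomial with few monomials is small. -/

open Set Polynomial

namespace Pool.Agent.TH275.LF

lemma eval_sub_zero (P : ℝ[X]) (x : ℝ) :
    P.eval x - P.eval 0 = ∑ e ∈ P.support.erase 0, P.coeff e * x ^ e := by
  have h1 : P.eval x = ∑ e ∈ P.support, P.coeff e * x ^ e := by
    rw [eval_eq_sum, sum_def]
  have h0 : P.eval 0 = P.coeff 0 := (coeff_zero_eq_eval_zero P).symm
  rw [h1, h0]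
  by_cases h : 0 ∈ P.support
  · rw [← Finset.add_sum_erase _ _ h]
    simp
  · have h2 : P.coeff 0 = 0 := by simpa using h
    rw [Finset.erase_eq_of_notMem h, h2, sub_zero]

lemma two_pow_ge (M : ℕ) : (M : ℝ) ≤ 2 ^ M := by
  exact_mod_cast (Nat.lt_two_pow_self (n := M)).le

/-- the number of scales -/
theorem scaleCount' (P : ℝ[X]) (M : ℕ) (i₀ : ℤ) (hM : P.support.card ≤ M)
    (hx : ∃ x : ℝ, |x| ≤ (2:ℝ) ^ (i₀ + 4) ∧ 1 / 64 < |P.eval x - P.eval 0|) :
    {i : ℤ | i₀ ≤ i ∧ ∃ x ∈ Icc ((2:ℝ) ^ (i + 3)) ((2:ℝ) ^ (i + 4)), |P.eval x| < 4}.encard ≤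
      6 * M + 11 := by
  classical
  obtain ⟨B, hB, hBd⟩ := exists_scales P.support P.coeff fun e he => by simpa using he
  obtain ⟨x₁, hx₁, hx₂⟩ := hx
  -- a large term
  obtain ⟨e', he', he'0, hbig⟩ : ∃ e' ∈ P.support, 1 ≤ e' ∧
      1 / (64 * (M : ℝ)) < |P.coeff e'| * |x₁| ^ e' := by
    by_contra hcon
    push Not at hcon
    rw [eval_sub_zero] at hx₂
    have h1 : |∑ e ∈ P.support.erase 0, P.coeff e * x₁ ^ e| ≤
        ∑ e ∈ P.support.erase 0, 1 / (64 * (M : ℝ)) := by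
      refine (Finset.abs_sum_le_sum_abs _ _).trans (Finset.sum_le_sum fun e he => ?_)
      rw [Finset.mem_erase] at he
      rw [abs_mul, abs_pow]
      exact hcon e he.2 (by omega)
    rw [Finset.sum_const, nsmul_eq_mul] at h1
    have h2 : ((P.support.erase 0).card : ℝ) ≤ M := by
      exact_mod_cast (Finset.card_le_card (Finset.erase_subset _ _)).trans hM
    rcases Nat.eq_zero_or_pos M with h3 | h3
    · have h4 : (P.support.erase 0).card = 0 := by
        have := (Finset.card_le_card (Finset.erase_subset 0 P.support)).trans hM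
        omega
      rw [h4] at h1
      simp only [Nat.cast_zero, zero_mul] at h1
      linarith
    · have h4 : (0:ℝ) < M := by exact_mod_cast h3
      have h5 : ((P.support.erase 0).card : ℝ) * (1 / (64 * M)) ≤ M * (1 / (64 * M)) := by
        gcongr
      have h6 : (M:ℝ) * (1 / (64 * M)) = 1 / 64 := by
        field_simp
      linarith
  have hM1 : 1 ≤ M := by
    have : 0 < P.support.card := Finset.card_pos.2 ⟨e', he'⟩
    omega
  have hMR : (0:ℝ) < M := by exact_mod_cast hM1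
  have hsub : {i : ℤ | i₀ ≤ i ∧ ∃ x ∈ Icc ((2:ℝ) ^ (i + 3)) ((2:ℝ) ^ (i + 4)), |P.eval x| < 4} ⊆
      ((Finset.Ico i₀ (i₀ + (11 + M : ℕ)) ∪ B.image (fun i => i - 3) : Finset ℤ) : Set ℤ) := by
    rintro i ⟨hi, x, hx, hx4⟩
    rw [Finset.coe_union]
    by_cases h : i < i₀ + (11 + M : ℕ)
    · left
      rw [Finset.mem_coe, Finset.mem_Ico]
      exact ⟨hi, h⟩
    · right
      push Not at h
      by_contra hcon
      have hiB : i + 3 ∉ B := by
        intro hi3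
        apply hcon
        rw [Finset.mem_coe, Finset.mem_image]
        exact ⟨i + 3, hi3, by ring⟩
      have h1 := hBd (i + 3) hiB x (by
        rw [show i + 3 + 1 = i + 4 by ring]
        exact hx) e' he'
      have h2 : ∑ e ∈ P.support, P.coeff e * x ^ e = P.eval x := by
        rw [eval_eq_sum, sum_def]
      rw [h2] at h1
      have hxp : |x₁| * 2 ^ (10 + M) ≤ x := by
        calc |x₁| * 2 ^ (10 + M) ≤ (2:ℝ) ^ (i₀ + 4) * 2 ^ (10 + M) := by gcongr
          _ = (2:ℝ) ^ (i₀ + (11 + M : ℕ) + 3) := by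
              rw [← zpow_natCast, ← zpow_add₀ (by norm_num)]
              congr 1
              push_cast
              ring
          _ ≤ (2:ℝ) ^ (i + 3) := zpow_le_zpow_right₀ (by norm_num) (by omega)
          _ ≤ x := hx.1
      have h3 : |x₁| ^ e' * 2 ^ (10 + M) ≤ x ^ e' := by
        calc |x₁| ^ e' * 2 ^ (10 + M) ≤ |x₁| ^ e' * (2 ^ (10 + M)) ^ e' := by
              gcongr
              exact le_self_pow₀ (one_le_pow₀ (by norm_num)) (by omega)
          _ = (|x₁| * 2 ^ (10 + M)) ^ e' := by rw [mul_pow]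
          _ ≤ x ^ e' := pow_le_pow_left₀ (by positivity) hxp _
      have h4 : |P.coeff e'| * (|x₁| ^ e' * 2 ^ (10 + M)) ≤ |P.coeff e'| * x ^ e' := by gcongr
      have h5 : 1 / (64 * (M:ℝ)) * 2 ^ (10 + M) < |P.coeff e'| * |x₁| ^ e' * 2 ^ (10 + M) := by
        gcongr
      have h6 : (12:ℝ) ≤ 1 / (64 * (M:ℝ)) * 2 ^ (10 + M) := by
        have h7 := two_pow_ge M
        rw [pow_add, one_div, inv_mul_eq_div, le_div_iff₀ (by positivity)]
        norm_num
        nlinarith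
      nlinarith
  refine (encard_le_encard hsub).trans ?_
  rw [encard_coe_eq_coe_finsetCard]
  have hc : (Finset.Ico i₀ (i₀ + (11 + M : ℕ)) ∪ B.image (fun i => i - 3)).card ≤ 6 * M + 11 := by
    refine (Finset.card_union_le _ _).trans ?_
    have h1 : (Finset.Ico i₀ (i₀ + (11 + M : ℕ))).card = 11 + M := by
      rw [Int.card_Ico]
      omega
    have h2 : (B.image (fun i => i - 3)).card ≤ 5 * M :=
      Finset.card_image_le.trans (hB.trans (by omega))
    omega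
  exact_mod_cast hc

/-- small variation on small scales -/
theorem smallBeta' (P : ℝ[X]) (M : ℕ) (i₀ : ℤ) (hM : (P.support.erase 0).card ≤ M)
    (hP : ∀ x : ℝ, |x| ≤ (2:ℝ) ^ (i₀ + 3) → |P.eval x - P.eval 0| ≤ 1 / 64) (j : ℤ)
    (hj : j ≤ i₀ + 3) (x : ℝ) (hx : |x| ≤ (2:ℝ) ^ j) :
    |P.eval x - P.eval 0| ≤ min (1 / 64) (8 ^ (2 * M + 1) / 32 * (2:ℝ) ^ (j - i₀ - 3)) := by
  classical
  have hxs : |x| ≤ (2:ℝ) ^ (i₀ + 3) := hx.trans (zpow_le_zpow_right₀ (by norm_num) hj)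
  have hb := hP x hxs
  refine le_min hb ?_
  obtain ⟨B, hB, hBd⟩ := exists_scales (P.support.erase 0) P.coeff fun e he => by
    simpa using (Finset.mem_erase.1 he).2
  -- a good scale
  obtain ⟨i, hi1, hi2, hiB⟩ : ∃ i : ℤ, i₀ + 2 - 5 * M ≤ i ∧ i ≤ i₀ + 2 ∧ i ∉ B := by
    by_contra hcon
    push Not at hcon
    have h1 : Finset.Icc (i₀ + 2 - 5 * (M:ℤ)) (i₀ + 2) ⊆ B := by
      intro i hi
      rw [Finset.mem_Icc] at hi
      exact hcon i hi.1 hi.2
    have h2 := Finset.card_le_card h1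
    rw [Int.card_Icc] at h2
    omega
  have h8 : (8:ℝ) ^ (2 * M + 1) = 2 ^ (6 * M + 3) := by
    rw [show (8:ℝ) = 2 ^ 3 by norm_num, ← pow_mul]
    congr 1
    ring
  have hi0 : (0:ℝ) < (2:ℝ) ^ i := zpow_pos two_pos _
  have hterm : ∀ e ∈ P.support.erase 0, |P.coeff e| * ((2:ℝ) ^ i) ^ e ≤ 3 / 64 := by
    intro e he
    have h1 := hBd i hiB ((2:ℝ) ^ i) ⟨le_rfl, zpow_le_zpow_right₀ (by norm_num) (by omega)⟩ e he
    rw [← eval_sub_zero] at h1
    have h2 := hP ((2:ℝ) ^ i) (by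
      rw [abs_of_pos hi0]
      exact zpow_le_zpow_right₀ (by norm_num) (by omega))
    linarith
  rcases le_or_gt j i with hji | hji
  · -- small scales
    have hq : |x| / (2:ℝ) ^ i ≤ 1 := by
      rw [div_le_one hi0]
      exact hx.trans (zpow_le_zpow_right₀ (by norm_num) hji)
    have hq0 : 0 ≤ |x| / (2:ℝ) ^ i := by positivity
    have h1 : |P.eval x - P.eval 0| ≤ M * (3 / 64 * (|x| / (2:ℝ) ^ i)) := by
      rw [eval_sub_zero]
      calc |∑ e ∈ P.support.erase 0, P.coeff e * x ^ e|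
          ≤ ∑ e ∈ P.support.erase 0, |P.coeff e * x ^ e| := Finset.abs_sum_le_sum_abs _ _
        _ ≤ ∑ e ∈ P.support.erase 0, 3 / 64 * (|x| / (2:ℝ) ^ i) := by
            refine Finset.sum_le_sum fun e he => ?_
            have he0 : e ≠ 0 := (Finset.mem_erase.1 he).1
            have h3 : |x| ^ e = ((2:ℝ) ^ i) ^ e * (|x| / (2:ℝ) ^ i) ^ e := by
              rw [← mul_pow, mul_div_cancel₀ _ hi0.ne']
            rw [abs_mul, abs_pow, h3, ← mul_assoc]
            refine mul_le_mul (hterm e he) (pow_le_of_le_one hq0 hq he0) (by positivity)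
              (by norm_num)
        _ = ((P.support.erase 0).card : ℝ) * (3 / 64 * (|x| / (2:ℝ) ^ i)) := by
            rw [Finset.sum_const, nsmul_eq_mul]
        _ ≤ M * (3 / 64 * (|x| / (2:ℝ) ^ i)) := by
            have : ((P.support.erase 0).card : ℝ) ≤ M := by exact_mod_cast hM
            gcongr
    have h2 : |x| / (2:ℝ) ^ i ≤ (2:ℝ) ^ (5 * M + 1) * (2:ℝ) ^ (j - i₀ - 3) := by
      rw [div_le_iff₀ hi0]
      calc |x| ≤ (2:ℝ) ^ j := hx
        _ ≤ (2:ℝ) ^ ((5 * M + 1 : ℕ) + (j - i₀ - 3) + i) :=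
            zpow_le_zpow_right₀ (by norm_num) (by push_cast; omega)
        _ = (2:ℝ) ^ (5 * M + 1) * (2:ℝ) ^ (j - i₀ - 3) * (2:ℝ) ^ i := by
            rw [zpow_add₀ (by norm_num), zpow_add₀ (by norm_num), zpow_natCast]
    have h3 : (M:ℝ) * (3 / 64) * (2:ℝ) ^ (5 * M + 1) ≤ 8 ^ (2 * M + 1) / 32 := by
      rw [h8]
      have h4 := two_pow_ge M
      have h5 : (2:ℝ) ^ (6 * M + 3) = 2 ^ M * 2 ^ (5 * M + 1) * 4 := by
        rw [show 6 * M + 3 = M + (5 * M + 1) + 2 by ring, pow_add, pow_add]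
        norm_num
      rw [h5]
      have h6 : (0:ℝ) < 2 ^ (5 * M + 1) := by positivity
      nlinarith
    have hp : (0:ℝ) < (2:ℝ) ^ (j - i₀ - 3) := zpow_pos two_pos _
    calc |P.eval x - P.eval 0| ≤ M * (3 / 64 * (|x| / (2:ℝ) ^ i)) := h1
      _ ≤ M * (3 / 64 * ((2:ℝ) ^ (5 * M + 1) * (2:ℝ) ^ (j - i₀ - 3))) := by gcongr
      _ = M * (3 / 64) * (2:ℝ) ^ (5 * M + 1) * (2:ℝ) ^ (j - i₀ - 3) := by ring
      _ ≤ 8 ^ (2 * M + 1) / 32 * (2:ℝ) ^ (j - i₀ - 3) := by gcongr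
  · -- large scales
    refine hb.trans ?_
    rw [h8]
    have h1 : (2:ℝ) ^ (-(5 * M : ℤ)) ≤ (2:ℝ) ^ (j - i₀ - 3) :=
      zpow_le_zpow_right₀ (by norm_num) (by omega)
    have h2 : (2:ℝ) ^ (6 * M + 3) * (2:ℝ) ^ (-(5 * M : ℤ)) = 2 ^ (M + 3) := by
      rw [← zpow_natCast, ← zpow_natCast, ← zpow_add₀ (by norm_num)]
      congr 1
      push_cast
      ring
    have h3 : (8:ℝ) ≤ 2 ^ (M + 3) := by
      rw [pow_add]
      have := one_le_pow₀ (M₀ := ℝ) (a := 2) (n := M) (by norm_num)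
      nlinarith
    have hp : (0:ℝ) < 2 ^ (6 * M + 3) := by positivity
    calc (1:ℝ) / 64 ≤ 8 / 32 := by norm_num
      _ ≤ 2 ^ (M + 3) / 32 := by gcongr
      _ = 2 ^ (6 * M + 3) / 32 * (2:ℝ) ^ (-(5 * M : ℤ)) := by rw [← h2]; ring
      _ ≤ 2 ^ (6 * M + 3) / 32 * (2:ℝ) ^ (j - i₀ - 3) := by gcongr

end Pool.Agent.TH275.LF
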