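import Pool.Agent.TH275.LF.Lien1
import Pool.Agent.TH275.LF.Rect
import Pool.Agent.TH275.LF.Roots
import Pool.Agent.TH275.LF.Scales2

/-! Lienard systems whose nonlinearity has few monomials. -/

open Real Set MeasureTheory Topology Filter
open scoped ENNReal

namespace Pool.Agent.TH275.LF

open Pool.Agent Pool.Agent.H709L
open Pool.Agent.H709R2 (wedge field ClosedOrbit)

lemma support_card_le_of {q p : Polynomial ℝ} {m : ℕ}
    (hm : (p.support.filter (fun e => 2 ≤ e)).card ≤ m)
    (h : ∀ k, 2 ≤ k → q.coeff k ≠ 0 → p.coeff k ≠ 0) : q.support.card ≤ m + 2 := by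
  have h1 : q.support ⊆ insert 0 (insert 1 (p.support.filter (fun e => 2 ≤ e))) := by
    intro k hk
    rw [Polynomial.mem_support_iff] at hk
    rw [Finset.mem_insert, Finset.mem_insert, Finset.mem_filter, Polynomial.mem_support_iff]
    by_cases h0 : k = 0
    · exact Or.inl h0
    by_cases h1 : k = 1
    · exact Or.inr (Or.inl h1)
    · exact Or.inr (Or.inr ⟨h k (by omega) hk, by omega⟩)
  refine (Finset.card_le_card h1).trans ?_
  refine (Finset.card_insert_le _ _).trans ?_
  have := Finset.card_insert_le 1 (p.support.filter (fun e => 2 ≤ e))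
  omega

lemma derivative_support_card_le {q p : Polynomial ℝ} {m : ℕ}
    (hm : (p.support.filter (fun e => 2 ≤ e)).card ≤ m)
    (h : ∀ k, 2 ≤ k → q.coeff k ≠ 0 → p.coeff k ≠ 0) : q.derivative.support.card ≤ m + 1 := by
  classical
  have h1 : q.derivative.support ⊆
      insert 0 ((p.support.filter (fun e => 2 ≤ e)).image (fun e => e - 1)) := by
    intro k hk
    rw [Polynomial.mem_support_iff, Polynomial.coeff_derivative] at hk
    rw [Finset.mem_insert, Finset.mem_image]
    by_cases h0 : k = 0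
    · exact Or.inl h0
    · right
      refine ⟨k + 1, ?_, by omega⟩
      rw [Finset.mem_filter, Polynomial.mem_support_iff]
      exact ⟨h (k + 1) (by omega) (left_ne_zero_of_mul hk), by omega⟩
  refine (Finset.card_le_card h1).trans ?_
  refine (Finset.card_insert_le _ _).trans ?_
  have := Finset.card_image_le (s := p.support.filter (fun e => 2 ≤ e)) (f := fun e => e - 1)
  omega

theorem hv_sparse (p : Polynomial ℝ) (m : ℕ)
    (hm : (p.support.filter (fun e => 2 ≤ e)).card ≤ m) : HV p (2 * m + 3) := by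
  intro f M a b hab hM
  obtain ⟨q, hq⟩ : ∃ q, q = p - Polynomial.C f * Polynomial.X := ⟨_, rfl⟩
  rw [← hq] at hM ⊢
  have hM0 : 0 ≤ M := (abs_nonneg _).trans (hM a (left_mem_Icc.2 hab))
  by_cases hq0 : q.derivative = 0
  · rw [hq0]
    simp only [Polynomial.eval_zero, abs_zero, intervalIntegral.integral_zero]
    positivity
  have hc : q.derivative.support.card ≤ m + 1 := by
    refine derivative_support_card_le hm fun k hk h => ?_
    intro h0
    apply h
    rw [hq, Polynomial.coeff_sub, h0, Polynomial.coeff_C_mul, Polynomial.coeff_X, if_neg (by omega)]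
    simp
  have hr := card_roots_le q.derivative hq0
  have h := h4_induct q q.derivative.roots.toFinset (by
    intro x hx
    rw [Multiset.mem_toFinset, Polynomial.mem_roots hq0]
    exact hx) M q.derivative.roots.toFinset.card a b hab
    (Finset.card_le_card (Finset.filter_subset _ _)) hM
  have h3 : (1 + (q.derivative.roots.toFinset.card : ℝ)) ≤ 2 * m + 3 := by
    have : 1 + q.derivative.roots.toFinset.card ≤ 2 * m + 3 := by omega
    exact_mod_cast this
  push_cast
  calc _ ≤ 2 * M * (1 + (q.derivative.roots.toFinset.card : ℝ)) := h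
    _ ≤ 2 * M * (2 * m + 3) := by gcongr
    _ = 2 * (2 * m + 3) * M := by ring

lemma lf_val (p : Polynomial ℝ) (z : ℝ × ℝ) : lf p 0 z = (z.2 - p.eval z.1, -z.1) := by
  unfold lf
  simp

theorem hr_sparse (p : Polynomial ℝ) (m : ℕ)
    (hm : (p.support.filter (fun e => 2 ≤ e)).card ≤ m) : HR p (2 * m + 3) := by
  intro a b c e
  refine rect_gen (X := lf p 0) (K3.contDiff_lf p 0) ?_ ?_ a b c e
  · intro y u v huv
    obtain ⟨q, hq⟩ : ∃ q : Polynomial ℝ, q = Polynomial.C (u * y) - Polynomial.C u * p -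
      Polynomial.C v * Polynomial.X := ⟨_, rfl⟩
    have hqe : ∀ t : ℝ, u * (lf p 0 ((0, y) + t • (1, 0))).1 + v * (lf p 0 ((0, y) + t • (1, 0))).2 =
        q.eval t := by
      intro t
      rw [lf_val, hq]
      simp
      ring
    simp only [hqe]
    by_cases hq0 : q = 0
    · left
      intro t
      rw [hq0, Polynomial.eval_zero]
    · right
      have h1 : {t : ℝ | q.eval t = 0} = (q.roots.toFinset : Set ℝ) := by
        ext t
        rw [Finset.mem_coe, Multiset.mem_toFinset, Polynomial.mem_roots hq0]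
        rfl
      rw [h1, encard_coe_eq_coe_finsetCard]
      have h2 := card_roots_le q hq0
      have h3 : q.support.card ≤ m + 2 := by
        refine support_card_le_of hm fun k hk h => ?_
        intro h0
        apply h
        rw [hq, Polynomial.coeff_sub, Polynomial.coeff_sub, Polynomial.coeff_C_mul, h0,
          Polynomial.coeff_C_mul, Polynomial.coeff_X, if_neg (by omega), Polynomial.coeff_C,
          if_neg (by omega)]
        simp
      have h4 : q.roots.toFinset.card ≤ 2 * m + 3 := by omega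
      exact_mod_cast h4
  · intro x u v huv
    have hqe : ∀ t : ℝ, u * (lf p 0 ((x, 0) + t • (0, 1))).1 + v * (lf p 0 ((x, 0) + t • (0, 1))).2 =
        u * (t - p.eval x) - v * x := by
      intro t
      rw [lf_val]
      simp
      ring
    simp only [hqe]
    by_cases hu : u = 0
    · by_cases hx : v * x = 0
      · left
        intro t
        rw [hu, hx]
        ring
      · right
        have : {t : ℝ | u * (t - p.eval x) - v * x = 0} = ∅ := by
          rw [eq_empty_iff_forall_notMem]
          intro t ht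
          apply hx
          have : u * (t - p.eval x) - v * x = 0 := ht
          rw [hu] at this
          linarith
        rw [this]
        simp
    · right
      have : {t : ℝ | u * (t - p.eval x) - v * x = 0} ⊆ {p.eval x + v * x / u} := by
        intro t ht
        have h1 : u * (t - p.eval x) - v * x = 0 := ht
        rw [mem_singleton_iff]
        field_simp
        linarith
      refine (encard_le_encard this).trans ?_
      rw [encard_singleton]
      exact_mod_cast (by omega : 1 ≤ 2 * m + 3)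

lemma support_div (p P : Polynomial ℝ) (m : ℕ) (hP : p = Polynomial.X * P)
    (hm : (p.support.filter (fun e => 2 ≤ e)).card ≤ m) :
    (P.support.erase 0).card ≤ m ∧ P.support.card ≤ m + 1 := by
  classical
  have h1 : (P.support.erase 0).card ≤ m := by
    refine le_trans ?_ hm
    refine Finset.card_le_card_of_injOn (fun k => k + 1) ?_ (fun a _ b _ h => by simpa using h)
    intro k hk
    rw [Finset.mem_coe, Finset.mem_erase, Polynomial.mem_support_iff] at hk
    show k + 1 ∈ _
    rw [Finset.mem_coe, Finset.mem_filter, Polynomial.mem_support_iff, hP,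
      Polynomial.coeff_X_mul]
    exact ⟨hk.2, by omega⟩
  refine ⟨h1, ?_⟩
  have := Finset.pred_card_le_card_erase (s := P.support) (a := 0)
  omega

theorem main_sparse (hM : MasterL) (hD : Data) (hB : BoxLen) (hPB : PointBound) (hX : Exhaust)
    (hSL : SmallLen) (hWin : Window) (hC : Cover) (hCA : CoverAll) (p : Polynomial ℝ) (m : ℕ)
    (hp0 : p.eval 0 = 0) (hm : (p.support.filter (fun e => 2 ≤ e)).card ≤ m) :
    MajI (fun s => ((LOrb p s).encard : ℝ≥0∞)) (900000 * (m + 1) ^ 2) := by
  classical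
  obtain ⟨r1, r2, r3, -⟩ := majRulesI
  obtain ⟨n, hnm⟩ : ∃ n, n = 2 * m + 3 := ⟨_, rfl⟩
  obtain ⟨N, hNm⟩ : ∃ N, N = 2 * m + 1 := ⟨_, rfl⟩
  have hn : 1 ≤ n := by omega
  have hV : HV p n := hnm ▸ hv_sparse p m hm
  have hR : HR p n := hnm ▸ hr_sparse p m hm
  have hnR : (1 : ℝ) ≤ n := by exact_mod_cast hn
  obtain ⟨P, hP⟩ : Polynomial.X ∣ p := by
    rw [Polynomial.X_dvd_iff, Polynomial.coeff_zero_eq_eval_zero]; exact hp0
  obtain ⟨hPe, hPs⟩ := support_div p P m hP hm
  have hpe : ∀ x, p.eval x - P.eval 0 * x = (P.eval x - P.eval 0) * x := by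
    intro x
    rw [hP, Polynomial.eval_mul, Polynomial.eval_X]; ring
  have hpos : ∀ j : ℤ, (0 : ℝ) < (2:ℝ) ^ j := fun j => zpow_pos (by norm_num) j
  by_cases hA : ∀ x, P.eval x = P.eval 0
  · -- constant case
    have h1 : ∀ j : ℤ, MajI (fun s => ((OE_D p j s).encard : ℝ≥0∞)) 0 := by
      intro j
      have h2 := smallClassP hM hD hSL hWin p n hV (P.eval 0) 0 ((2:ℝ) ^ j) hp0 hn le_rfl
        (by norm_num) (hpos j) (by intro x _; rw [hpe, hA x]; simp)
      rw [mul_zero] at h2
      exact h2
    have e : ℕ ≃ ℤ := Equiv.intEquivNat.symm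
    have h3 := r3 (fun i s => ((OE_D p (e i) s).encard : ℝ≥0∞)) (fun _ => 0) 0 (fun _ => le_rfl)
      hasSum_zero (fun i => h1 (e i))
    refine r1 _ _ _ _ (fun s hs => ?_) (by positivity) h3
    refine OE_enc _ _ ?_
    intro C hCm
    obtain ⟨j, hj1, hj2⟩ := hCA p s C hp0 hCm
    refine mem_iUnion.2 ⟨e.symm j, ?_⟩
    rw [Equiv.apply_symm_apply]
    exact ⟨hCm, hj1, hj2⟩
  · push Not at hA
    obtain ⟨x₂, hx₂⟩ := hA
    -- a point with a large value
    obtain ⟨x₁, hx₁⟩ : ∃ x₁ : ℝ, 1 / 64 < |P.eval x₁ - P.eval 0| := by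
      set Q : Polynomial ℝ := P - Polynomial.C (P.eval 0) with hQ
      have hQe : ∀ x, Q.eval x = P.eval x - P.eval 0 := by intro x; simp [hQ]
      have hQd : 0 < Q.degree := by
        by_contra hcon
        push Not at hcon
        have h1 := Polynomial.eq_C_of_degree_le_zero hcon
        have h2 : Q.eval x₂ = Q.eval 0 := by rw [h1]; simp
        rw [hQe, hQe, sub_self] at h2
        exact hx₂ (by linarith)
      have h3 := (Polynomial.abs_tendsto_atTop Q hQd).eventually (eventually_gt_atTop (1 / 64 : ℝ))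
      obtain ⟨x, hx⟩ := h3.exists
      exact ⟨x, by rw [← hQe]; exact hx⟩
    obtain ⟨i₀, hi₀, hmax⟩ : ∃ i₀ : ℤ, (∀ x : ℝ, |x| ≤ (2:ℝ) ^ (i₀ + 3) →
        |P.eval x - P.eval 0| ≤ 1 / 64) ∧ ∀ z : ℤ, (∀ x : ℝ, |x| ≤ (2:ℝ) ^ (z + 3) →
        |P.eval x - P.eval 0| ≤ 1 / 64) → z ≤ i₀ := by
      refine Int.exists_greatest_of_bdd ?_ ?_
      · obtain ⟨k, hk⟩ := pow_unbounded_of_one_lt |x₁| (by norm_num : (1:ℝ) < 2)
        refine ⟨k, fun z hz => ?_⟩
        by_contra hcon
        push Not at hcon
        have h1 : |x₁| ≤ (2:ℝ) ^ (z + 3) := by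
          refine hk.le.trans ?_
          rw [← zpow_natCast]
          exact zpow_le_zpow_right₀ (by norm_num) (by omega)
        linarith [hz x₁ h1]
      · have h1 : ContinuousAt (fun x => P.eval x) 0 := P.continuous.continuousAt
        obtain ⟨δ, hδ, hδ2⟩ := Metric.continuousAt_iff.1 h1 (1 / 64) (by norm_num)
        obtain ⟨k, hk⟩ := exists_pow_lt_of_lt_one hδ (by norm_num : (1 / 2 : ℝ) < 1)
        refine ⟨-(k : ℤ) - 3, fun x hx => ?_⟩
        have h2 : (2:ℝ) ^ (-(k : ℤ) - 3 + 3) = (1 / 2) ^ k := by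
          rw [sub_add_cancel, zpow_neg, zpow_natCast, one_div, inv_pow]
        rw [h2] at hx
        have h3 := hδ2 (x := x) (by rw [Real.dist_eq, sub_zero]; linarith)
        rw [Real.dist_eq] at h3
        exact h3.le
    obtain ⟨x₃, hx₃, hx₃'⟩ : ∃ x : ℝ, |x| ≤ (2:ℝ) ^ (i₀ + 4) ∧ 1 / 64 < |P.eval x - P.eval 0| := by
      by_contra hcon
      push Not at hcon
      have := hmax (i₀ + 1) (by
        intro x hx
        refine hcon x ?_
        have h9 : i₀ + 1 + 3 = i₀ + 4 := by ring
        rwa [h9] at hx)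
      omega
    have hcount := scaleCount' P (m + 1) i₀ hPs ⟨x₃, hx₃, hx₃'⟩
    set I : Set ℤ := {i : ℤ | i₀ ≤ i ∧ ∃ x ∈ Icc ((2:ℝ) ^ (i + 3)) ((2:ℝ) ^ (i + 4)),
      |P.eval x| < 4} with hI
    have hIfin : I.Finite := by
      refine Set.finite_of_encard_le_coe (k := 6 * (m + 1) + 11) ?_
      exact_mod_cast hcount
    set I' : Set ℤ := {i₀, i₀ + 1} ∪ (fun i => i + 1) '' I with hI'
    have hI'fin : I'.Finite := (Set.toFinite _).union (hIfin.image _)
    set T : Finset ℤ := hI'fin.toFinset with hT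
    have hTcard : (T.card : ℝ) ≤ 6 * m + 19 := by
      have h1 : (T.card : ℕ∞) ≤ 2 + (6 * ((m + 1 : ℕ) : ℕ∞) + 11) := by
        have h2 : (T.card : ℕ∞) = I'.encard := by
          rw [hI'fin.encard_eq_coe_toFinset_card]
        rw [h2, hI']
        refine (Set.encard_union_le _ _).trans (add_le_add ?_ ?_)
        · exact (Set.encard_insert_le _ _).trans (by
            rw [Set.encard_singleton]; norm_num)
        · exact (Set.encard_image_le _ _).trans hcount
      have h3 : T.card ≤ 2 + (6 * (m + 1) + 11) := by exact_mod_cast h1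
      have h4 : T.card ≤ 6 * m + 19 := by omega
      exact_mod_cast h4
    -- boxes
    have hbox : MajI (fun s => ∑ i ∈ T, (((Capt p s i 1).encard : ℝ≥0∞) +
        ((Capt p s i (-1)).encard : ℝ≥0∞))) (T.card * (7200 * n + 7200 * n)) := by
      refine OE_fin T _ _ (by positivity) (fun i => ?_)
      exact r2 _ _ _ _ (by positivity) (by positivity)
        (boxClassP hM hD hB hPB hX p n hR hp0 hn i 1 (Or.inl rfl))
        (boxClassP hM hD hB hPB hX p n hR hp0 hn i (-1) (Or.inr rfl))
    -- small orbits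
    have hsm : MajI (fun s => ∑' l : ℕ, ((OE_D p (i₀ + 2 - l) s).encard : ℝ≥0∞))
        (128 * (n + 1) * ((3 * N + 2) / 64)) := by
      refine r3 _ (fun l => 128 * (n + 1) * OE_c N l) _
        (fun l => mul_nonneg (by positivity) (OE_c_nonneg N l)) ((OE_c_sum N).mul_left _) ?_
      intro l
      set κ : ℝ := min (1 / 64) (8 ^ N / 32 * (2:ℝ) ^ (i₀ + 2 - (l : ℤ) - i₀ - 3)) with hκ
      have hκ0 : 0 ≤ κ := le_min (by norm_num) (by positivity)
      have h1 : ∀ x : ℝ, |x| ≤ (2:ℝ) ^ (i₀ + 2 - (l : ℤ)) →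
          |p.eval x - P.eval 0 * x| ≤ κ * |x| := by
        intro x hx
        rw [hpe, abs_mul]
        refine mul_le_mul_of_nonneg_right ?_ (abs_nonneg _)
        have h2 := smallBeta' P m i₀ hPe hi₀ (i₀ + 2 - l) (by omega) x hx
        rw [← hNm] at h2
        exact h2
      have h2 := smallClassP hM hD hSL hWin p n hV (P.eval 0) κ ((2:ℝ) ^ (i₀ + 2 - (l : ℤ))) hp0 hn
        hκ0 (min_le_left _ _) (hpos _) h1
      refine r1 _ _ _ _ (fun s _ => le_rfl) ?_ h2
      refine mul_le_mul_of_nonneg_left ?_ (by positivity)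
      unfold OE_c
      split_ifs with h3
      · exact min_le_left _ _
      · refine (min_le_right _ _).trans (le_of_eq ?_)
        have h4 : i₀ + 2 - (l : ℤ) - i₀ - 3 = -((l + 1 : ℕ) : ℤ) := by push_cast; ring
        rw [h4, zpow_neg, zpow_natCast, one_div, inv_pow]
    have htot := r2 _ _ _ _ (by positivity) (by positivity) hsm hbox
    refine r1 _ _ _ _ (fun s hs => ?_) ?_ htot
    · -- covering
      have hsub : LOrb p s ⊆ (⋃ l : ℕ, OE_D p (i₀ + 2 - l) s) ∪
          (⋃ i ∈ T, (Capt p s i 1 ∪ Capt p s i (-1))) := by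
        intro C hCm
        rcases hC p P i₀ s C hP (abs_lt.2 hs) hCm with ⟨j, hj, hj1, hj2⟩ | ⟨i, hi, hi2⟩
        · left
          refine mem_iUnion.2 ⟨(i₀ + 2 - j).toNat, ?_⟩
          have h5 : i₀ + 2 - ((i₀ + 2 - j).toNat : ℤ) = j := by
            rw [Int.toNat_of_nonneg (by omega)]; ring
          rw [h5]
          exact ⟨hCm, hj1, hj2⟩
        · right
          refine mem_iUnion₂.2 ⟨i, ?_, hi2⟩
          rw [hT, Set.Finite.mem_toFinset, hI']
          rcases hi with h | h | ⟨h, h'⟩
          · left; simp [h]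
          · left; simp [h]
          · right
            exact ⟨i - 1, ⟨h, h'⟩, by ring⟩
      calc ((LOrb p s).encard : ℝ≥0∞) ≤ _ := OE_enc_mono hsub
        _ ≤ _ := OE_enc_union _ _
        _ ≤ _ := add_le_add (OE_enc _ _ subset_rfl)
          ((OE_enc_fin _ T _ subset_rfl).trans (Finset.sum_le_sum fun i _ => OE_enc_union _ _))
    · have h6 : (T.card : ℝ) * (7200 * n + 7200 * n) ≤ (6 * m + 19) * (14400 * n) := by
        have : (7200 * n + 7200 * n : ℝ) = 14400 * n := by ring
        rw [this]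
        exact mul_le_mul_of_nonneg_right hTcard (by positivity)
      have h7 : (n : ℝ) = 2 * m + 3 := by rw [hnm]; push_cast; ring
      have h8 : (N : ℝ) = 2 * m + 1 := by rw [hNm]; push_cast; ring
      have hm0 : (0:ℝ) ≤ m := Nat.cast_nonneg m
      rw [h7] at h6 ⊢
      rw [h8]
      nlinarith [mul_nonneg hm0 hm0]


end Pool.Agent.TH275.LF
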