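import Pool.Agent.TH275.LF.Lien2
import Pool.Agent.H709L.FinE
import Pool.Agent.W960.HP.Count

/-! Lienard systems whose nonlinearity has few monomials: mean number and total persistence of the
closed orbits. -/

open Real Set MeasureTheory Topology Filter
open scoped ENNReal

namespace Pool.Agent.TH275.LF

open Pool.Agent Pool.Agent.H709L
open Pool.Agent.H709R2 (ClosedOrbit)
open Pool.Agent.W960.HP (Good Pers sum_vol_le)

/-- the averaged bound on `(-1, 1)` -/
theorem main_sparse' (p : Polynomial ℝ) (m : ℕ)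
    (hp0 : p.eval 0 = 0) (hm : (p.support.filter (fun e => 2 ≤ e)).card ≤ m) :
    MajI (fun s => ((LOrb p s).encard : ℝ≥0∞)) (900000 * (m + 1) ^ 2) := by
  have hA := arcTimes
  have hD := data hA
  have hU := unimodal
  have hWR := widthR hU
  have hRf := reflect hD
  have hWL := widthL hWR hRf
  have hDj := disj hD
  have hM := masterL hDj
  exact main_sparse hM hD (boxLen hU) pointBound exhaust (smallLen hWR) window
    (cover hD hWR hWL (capture hU)) (coverAll hD hWR hWL) p m hp0 hm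

/-- the mean over intervals of length one -/
theorem mean_sparse (p : Polynomial ℝ) (m : ℕ)
    (hm : (p.support.filter (fun e => 2 ≤ e)).card ≤ m) (a : ℝ) :
    ∫⁻ s in Ioo a (a + 1), NL p s ≤ ENNReal.ofReal (900000 * (m + 1) ^ 2) := by
  set c : ℝ := a + 1 / 2 with hc
  set q : Polynomial ℝ := (p + Polynomial.C (-p.eval 0)) - Polynomial.C c * Polynomial.X with hq
  have hNL : ∀ t, NL q t = NL p (t + c) := by
    intro t
    rw [hq, (translate (p + Polynomial.C (-p.eval 0)) t 0).2 c, (translate p (t + c) (-p.eval 0)).1]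
  have hq0 : q.eval 0 = 0 := by
    rw [hq]; simp
  have hqn : (q.support.filter (fun e => 2 ≤ e)).card ≤ m := by
    refine (Finset.card_le_card ?_).trans hm
    intro k hk
    rw [Finset.mem_filter, Polynomial.mem_support_iff] at hk ⊢
    refine ⟨?_, hk.2⟩
    intro h0
    apply hk.1
    have h2 := hk.2
    rw [hq, Polynomial.coeff_sub, Polynomial.coeff_add, h0, Polynomial.coeff_C_mul,
      Polynomial.coeff_X, if_neg (by omega), Polynomial.coeff_C, if_neg (by omega)]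
    simp
  obtain ⟨g, hg, hg1, hg2⟩ := main_sparse' q m hq0 hqn
  have hle : ∀ t ∈ Ioo (-1:ℝ) 1, NL p (t + c) ≤ g t := by
    intro t ht
    refine le_trans ?_ (hg1 t ht)
    rw [← hNL]
    unfold NL
    apply ENat.toENNReal_mono
    apply encard_le_encard
    intro C hC
    exact minPeriod q t C hq0 hC
  calc ∫⁻ s in Ioo a (a + 1), NL p s
      = ∫⁻ s, (Ioo a (a + 1)).indicator (NL p) s := by
        rw [lintegral_indicator measurableSet_Ioo]
    _ = ∫⁻ t, (Ioo a (a + 1)).indicator (NL p) (t + c) :=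
        (lintegral_add_right_eq_self _ c).symm
    _ ≤ ∫⁻ t, (Ioo (-1:ℝ) 1).indicator g t := by
        refine lintegral_mono fun t => ?_
        by_cases ht : t + c ∈ Ioo a (a + 1)
        · have h1 : t ∈ Ioo (-1:ℝ) 1 := by
            rw [hc] at ht
            exact ⟨by linarith [ht.1], by linarith [ht.2]⟩
          rw [indicator_of_mem ht, indicator_of_mem h1]
          exact hle t h1
        · rw [indicator_of_notMem ht]
          exact zero_le
    _ = ∫⁻ t in Ioo (-1:ℝ) 1, g t := by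
        rw [lintegral_indicator measurableSet_Ioo]
    _ ≤ _ := hg2

lemma lcyc_shift {p : Polynomial ℝ} {s : ℝ} {γ : ℝ → ℝ × ℝ} {T : ℝ} (h : LCyc p s γ T) (u : ℝ) :
    LCyc p s (fun t => γ (t + u)) T where
  pos := h.pos
  ode t := (h.ode (t + u)).comp_add_const t u
  per t := by
    have := h.per (t + u)
    rw [← this]
    congr 1
    ring
  inj t v htv := by
    obtain ⟨k, hk⟩ := h.inj _ _ htv
    exact ⟨k, by linarith⟩
  ne t := h.ne _

/-- closed orbits for different parameters are disjoint -/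
theorem disjoint_lf (p : Polynomial ℝ) {s s' : ℝ} (hs : s ≠ s') {C D : Set (ℝ × ℝ)}
    (hC : ClosedOrbit (lf p s) C) (hD : ClosedOrbit (lf p s') D) : Disjoint C D := by
  rw [Set.disjoint_left]
  intro z hz hz'
  obtain ⟨q, hq⟩ : ∃ q, q = p + Polynomial.C (-p.eval 0) := ⟨_, rfl⟩
  have hqp : p = q + Polynomial.C (p.eval 0) := by
    rw [hq, add_assoc, ← Polynomial.C_add]
    simp
  have hq0 : q.eval 0 = 0 := by rw [hq]; simp
  obtain ⟨c, hc⟩ : ∃ c, c = p.eval 0 := ⟨_, rfl⟩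
  rw [← hc] at hqp
  rw [hqp] at hC hD
  obtain ⟨γ, T, hγ, hγr⟩ := minPeriod q s _ hq0 (closedOrbit_translate q c s C hC)
  obtain ⟨δ, S, hδ, hδr⟩ := minPeriod q s' _ hq0 (closedOrbit_translate q c s' D hD)
  have h1 : z - (0, c) ∈ range γ := hγr ▸ ⟨z, hz, rfl⟩
  have h2 : z - (0, c) ∈ range δ := hδr ▸ ⟨z, hz', rfl⟩
  obtain ⟨t, ht⟩ := h1
  obtain ⟨u, hu⟩ := h2
  exact hs (disj (data arcTimes) q s s' _ _ T S hq0 (lcyc_shift hγ t) (lcyc_shift hδ u)
    (by simp only [zero_add]; rw [ht, hu]))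

theorem good_lf (p : Polynomial ℝ) {σ : ℝ} (hσ : σ = 1 ∨ σ = -1) (η : ℝ) :
    Good (fun a => lf p (σ * a)) η where
  smooth a := p1_contDiff_lf p _
  cont := by
    have h1 : Continuous fun q : ℝ × (ℝ × ℝ) => p.eval q.2.1 :=
      p.continuous.comp (continuous_fst.comp continuous_snd)
    unfold lf
    fun_prop
  disj a _ b _ hab C D hC hD := by
    refine disjoint_lf p ?_ hC hD
    intro h
    apply hab
    rcases hσ with rfl | rfl <;> linarith

theorem side_sparse (p : Polynomial ℝ) (m : ℕ)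
    (hm : (p.support.filter (fun e => 2 ≤ e)).card ≤ m) {σ : ℝ} (hσ : σ = 1 ∨ σ = -1)
    (s : Finset (Set (ℝ × ℝ))) :
    ∑ C ∈ s, volume {η | η ∈ Ioo 0 1 ∧ Pers (fun a => lf p (σ * a)) (fun _ _ => True) η C} ≤
      ENNReal.ofReal (900000 * (m + 1) ^ 2) := by
  refine (sum_vol_le (fun η _ => good_lf p hσ η) (fun a => NL p (σ * a)) (fun a _ => ?_) s).trans ?_
  · unfold NL
    simp only [and_true]
    exact le_rfl
  · rcases hσ with rfl | rfl
    · have h := mean_sparse p m hm 0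
      rw [zero_add] at h
      simpa using h
    · have h := mean_sparse p m hm (-1)
      refine le_trans (le_of_eq ?_) h
      rw [← lintegral_indicator measurableSet_Ioo, ← lintegral_indicator measurableSet_Ioo,
        ← lintegral_sub_left_eq_self (μ := (volume : Measure ℝ))
          ((Ioo (-1) (-1 + 1)).indicator (NL p)) 0]
      refine lintegral_congr fun x => ?_
      by_cases hx : x ∈ Ioo (0:ℝ) 1
      · rw [indicator_of_mem hx, indicator_of_mem (show 0 - x ∈ Ioo (-1:ℝ) (-1 + 1) from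
          ⟨by linarith [hx.2], by linarith [hx.1]⟩)]
        congr 1
        ring
      · rw [indicator_of_notMem hx, indicator_of_notMem]
        intro h'
        exact hx ⟨by linarith [h'.2], by linarith [h'.1]⟩

/-- The closed orbit `C` persists when the parameter runs from `0` to `η`. -/
def PersL (p : Polynomial ℝ) (η : ℝ) (C : Set (ℝ × ℝ)) : Prop :=
  ∃ γ : ℝ → ℝ → ℝ × ℝ, ∃ T : ℝ → ℝ,
    ContinuousOn (fun q : ℝ × ℝ => γ q.1 q.2) (uIcc 0 η ×ˢ univ) ∧ ContinuousOn T (uIcc 0 η) ∧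
    (∀ a ∈ uIcc 0 η, 0 < T a ∧ (∀ t, HasDerivAt (γ a) (lf p a (γ a t)) t) ∧
      (∀ t, γ a (t + T a) = γ a t) ∧ ∃ s t, γ a s ≠ γ a t) ∧
    C = range (γ 0)

lemma PersL.mono {p : Polynomial ℝ} {η η' : ℝ}
    {C : Set (ℝ × ℝ)} (h : PersL p η C) (hη : η' ∈ uIcc 0 η) : PersL p η' C := by
  obtain ⟨γ, T, hc, hT, h1, hC⟩ := h
  have hsub : uIcc 0 η' ⊆ uIcc 0 η := uIcc_subset_uIcc left_mem_uIcc hη
  exact ⟨γ, T, hc.mono (prod_mono hsub le_rfl), hT.mono hsub, fun a ha => h1 a (hsub ha), hC⟩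

lemma PersL.pers {p : Polynomial ℝ} {σ : ℝ}
    (hσ : σ = 1 ∨ σ = -1) {η : ℝ} (hη : 0 < η) {C : Set (ℝ × ℝ)} (h : PersL p (σ * η) C) :
    Pers (fun a => lf p (σ * a)) (fun _ _ => True) η C := by
  obtain ⟨γ, T, hc, hT, h1, hC⟩ := h
  have hm : ∀ a ∈ Icc 0 η, σ * a ∈ uIcc 0 (σ * η) := by
    intro a ha
    rcases hσ with rfl | rfl
    · rw [mem_uIcc]; left; constructor <;> linarith [ha.1, ha.2]
    · rw [mem_uIcc]; right; constructor <;> linarith [ha.1, ha.2]
  refine ⟨fun a => γ (σ * a), fun a => T (σ * a), ⟨?_, ?_, fun a ha => (h1 _ (hm a ha)).1,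
    fun a ha => (h1 _ (hm a ha)).2.1, fun a ha => (h1 _ (hm a ha)).2.2.1,
    fun a ha => (h1 _ (hm a ha)).2.2.2⟩, fun a ha => trivial, ?_⟩
  · have h2 : ContinuousOn (fun q : ℝ × ℝ => ((σ * q.1, q.2) : ℝ × ℝ)) (Icc 0 η ×ˢ univ) := by
      fun_prop
    exact hc.comp h2 fun q hq => ⟨hm q.1 hq.1, mem_univ _⟩
  · exact hT.comp (by fun_prop) hm
  · simp [hC]

lemma meas_sideL (p : Polynomial ℝ) {σ : ℝ}
    (hσ : σ = 1 ∨ σ = -1) (L : ℝ) (C : Set (ℝ × ℝ)) :
    MeasurableSet {η | η ∈ Ioo 0 L ∧ PersL p (σ * η) C} := by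
  have : OrdConnected {η | η ∈ Ioo 0 L ∧ PersL p (σ * η) C} := by
    refine ⟨?_⟩
    rintro x ⟨hx, -⟩ y ⟨hy, hy'⟩ z ⟨hz1, hz2⟩
    refine ⟨⟨hx.1.trans_le hz1, hz2.trans_lt hy.2⟩, hy'.mono ?_⟩
    have hx0 := hx.1
    rcases hσ with rfl | rfl
    · rw [mem_uIcc]
      left
      constructor <;> linarith
    · rw [mem_uIcc]
      right
      constructor <;> linarith
  exact this.measurableSet

lemma two_sidesL (p : Polynomial ℝ) (L : ℝ) (C : Set (ℝ × ℝ)) :
    volume {η | η ∈ Ioo (-L) L ∧ PersL p η C} ≤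
      volume {η | η ∈ Ioo 0 L ∧ PersL p (1 * η) C} +
        volume {η | η ∈ Ioo 0 L ∧ PersL p (-1 * η) C} := by
  have h2 : {η | η ∈ Ioo (-L) L ∧ PersL p η C} ⊆
      ({η | η ∈ Ioo 0 L ∧ PersL p (1 * η) C} ∪
        (fun η => -η) ⁻¹' {η | η ∈ Ioo 0 L ∧ PersL p (-1 * η) C}) ∪ {0} := by
    rintro η ⟨hη, hP⟩
    rcases lt_trichotomy η 0 with h | h | h
    · left; right
      refine ⟨⟨by linarith, by linarith [hη.1]⟩, ?_⟩
      simpa using hP
    · right
      exact h
    · left; left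
      exact ⟨⟨h, hη.2⟩, by simpa using hP⟩
  calc volume {η | η ∈ Ioo (-L) L ∧ PersL p η C} ≤ _ := measure_mono h2
    _ ≤ volume ({η | η ∈ Ioo 0 L ∧ PersL p (1 * η) C} ∪
        (fun η => -η) ⁻¹' {η | η ∈ Ioo 0 L ∧ PersL p (-1 * η) C}) + volume {(0:ℝ)} :=
        measure_union_le _ _
    _ ≤ (volume {η | η ∈ Ioo 0 L ∧ PersL p (1 * η) C} +
        volume ((fun η => -η) ⁻¹' {η | η ∈ Ioo 0 L ∧ PersL p (-1 * η) C})) +
          volume {(0:ℝ)} := by
        exact add_le_add (measure_union_le _ _) le_rfl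
    _ = _ := by
        rw [Real.volume_singleton, add_zero]
        congr 1
        exact (Measure.measurePreserving_neg (volume : Measure ℝ)).measure_preimage
          (meas_sideL p (Or.inr rfl) L C).nullMeasurableSet

/-- total persistence -/
theorem total_sparse (p : Polynomial ℝ) (m : ℕ)
    (hm : (p.support.filter (fun e => 2 ≤ e)).card ≤ m) (S : Set (Set (ℝ × ℝ))) :
    ∑' C : S, volume {η | η ∈ Ioo (-1) 1 ∧ PersL p η C} ≤
      ENNReal.ofReal (1800000 * (m + 1) ^ 2) := by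
  classical
  rw [ENNReal.tsum_eq_iSup_sum]
  refine iSup_le fun s => ?_
  have hside : ∀ σ : ℝ, (σ = 1 ∨ σ = -1) → ∀ s : Finset (Set (ℝ × ℝ)),
      ∑ C ∈ s, volume {η | η ∈ Ioo 0 1 ∧ PersL p (σ * η) C} ≤
        ENNReal.ofReal (900000 * (m + 1) ^ 2) := by
    intro σ hσ s
    refine (Finset.sum_le_sum fun C _ => measure_mono ?_).trans (side_sparse p m hm hσ s)
    rintro η ⟨h1, h2⟩
    exact ⟨h1, PersL.pers hσ h1.1 h2⟩
  calc ∑ C ∈ s, volume {η | η ∈ Ioo (-1) 1 ∧ PersL p η C}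
      = ∑ C ∈ s.map (Function.Embedding.subtype _), volume {η | η ∈ Ioo (-1) 1 ∧ PersL p η C} := by
        rw [Finset.sum_map]
        rfl
    _ ≤ ∑ C ∈ s.map (Function.Embedding.subtype _),
        (volume {η | η ∈ Ioo 0 1 ∧ PersL p (1 * η) C} +
        volume {η | η ∈ Ioo 0 1 ∧ PersL p (-1 * η) C}) :=
        Finset.sum_le_sum fun C _ => two_sidesL p 1 C
    _ ≤ ENNReal.ofReal (900000 * (m + 1) ^ 2) + ENNReal.ofReal (900000 * (m + 1) ^ 2) := by
        rw [Finset.sum_add_distrib]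
        exact add_le_add (hside 1 (Or.inl rfl) _) (hside (-1) (Or.inr rfl) _)
    _ = ENNReal.ofReal (1800000 * (m + 1) ^ 2) := by
        rw [← ENNReal.ofReal_add (by positivity) (by positivity)]
        congr 1
        ring

end Pool.Agent.TH275.LF
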