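import Mathlib

/-! Dominant monomials: a sum of few monomials is comparable to its largest term on most dyadic
scales. -/

open Set

namespace Pool.Agent.TH275.LF

lemma geo_le (T : Finset ℕ) (f : ℕ → ℕ) (hf : Set.InjOn f T) :
    ∑ e ∈ T, (1 / 4 : ℝ) ^ (f e + 1) ≤ 1 / 3 := by
  have h1 : ∑ e ∈ T, (1 / 4 : ℝ) ^ (f e + 1) = ∑ d ∈ T.image f, (1 / 4 : ℝ) ^ (d + 1) := by
    rw [Finset.sum_image hf]
  rw [h1]
  have hs : Summable fun d : ℕ => (1 / 4 : ℝ) ^ (d + 1) := by
    simp_rw [pow_succ]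
    exact (summable_geometric_of_lt_one (by norm_num) (by norm_num)).mul_right _
  refine (hs.sum_le_tsum _ (fun d _ => by positivity)).trans (le_of_eq ?_)
  simp_rw [pow_succ]
  rw [tsum_mul_right, tsum_geometric_of_lt_one (by norm_num) (by norm_num)]
  norm_num

/-- on all but `5 |S|` dyadic scales the sum `∑ a_e x^e` is at least a third of each term -/
theorem exists_scales (S : Finset ℕ) (a : ℕ → ℝ) (ha : ∀ e ∈ S, a e ≠ 0) :
    ∃ B : Finset ℤ, B.card ≤ 5 * S.card ∧ ∀ i ∉ B, ∀ x ∈ Icc ((2:ℝ) ^ i) ((2:ℝ) ^ (i + 1)),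
      ∀ e' ∈ S, |a e'| * x ^ e' ≤ 3 * |∑ e ∈ S, a e * x ^ e| := by
  classical
  rcases S.eq_empty_or_nonempty with rfl | hS
  · exact ⟨∅, by simp, fun i _ x _ e' he' => absurd he' (Finset.notMem_empty _)⟩
  have hE : ∀ i : ℤ, ∃ e ∈ S, ∀ e' ∈ S, |a e'| * ((2:ℝ) ^ i) ^ e' ≤ |a e| * ((2:ℝ) ^ i) ^ e :=
    fun i => S.exists_max_image (fun e => |a e| * ((2:ℝ) ^ i) ^ e) hS
  choose E hES hEm using hE
  have hmono : ∀ i j : ℤ, i ≤ j → E i ≤ E j := by
    intro i j hij
    by_contra hcon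
    push Not at hcon
    rcases hij.eq_or_lt with rfl | hlt
    · exact lt_irrefl _ hcon
    have hy : (0:ℝ) < (2:ℝ) ^ i := zpow_pos two_pos _
    have hyz : (2:ℝ) ^ i < (2:ℝ) ^ j := zpow_lt_zpow_right₀ (by norm_num) hlt
    have hz : (0:ℝ) < (2:ℝ) ^ j := hy.trans hyz
    have h1 := hEm i (E j) (hES j)
    have h2 := hEm j (E i) (hES i)
    obtain ⟨d, hd⟩ : ∃ d, E i = E j + (d + 1) := ⟨E i - E j - 1, by omega⟩
    have hap : 0 < |a (E i)| := abs_pos.2 (ha _ (hES i))
    have e1 : ((2:ℝ) ^ i) ^ (E i) = ((2:ℝ) ^ i) ^ (E j) * ((2:ℝ) ^ i) ^ (d + 1) := by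
      rw [hd, pow_add]
    have e2 : ((2:ℝ) ^ j) ^ (E i) = ((2:ℝ) ^ j) ^ (E j) * ((2:ℝ) ^ j) ^ (d + 1) := by
      rw [hd, pow_add]
    rw [e1] at h1
    rw [e2] at h2
    have h1' : |a (E j)| ≤ |a (E i)| * ((2:ℝ) ^ i) ^ (d + 1) := by
      have hp : 0 < ((2:ℝ) ^ i) ^ (E j) := by positivity
      refine le_of_mul_le_mul_right ?_ hp
      linarith
    have h2' : |a (E i)| * ((2:ℝ) ^ j) ^ (d + 1) ≤ |a (E j)| := by
      have hp : 0 < ((2:ℝ) ^ j) ^ (E j) := by positivity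
      refine le_of_mul_le_mul_right ?_ hp
      linarith
    have h3 : ((2:ℝ) ^ i) ^ (d + 1) < ((2:ℝ) ^ j) ^ (d + 1) :=
      pow_lt_pow_left₀ hyz hy.le (by omega)
    have h4 : |a (E i)| * ((2:ℝ) ^ i) ^ (d + 1) < |a (E i)| * ((2:ℝ) ^ j) ^ (d + 1) :=
      mul_lt_mul_of_pos_left h3 hap
    linarith
  -- the jumps
  set J : Set ℤ := {i | E i ≠ E (i + 1)} with hJ
  have hJc : J.encard ≤ S.card := by
    rw [← encard_coe_eq_coe_finsetCard]
    refine encard_le_encard_of_injOn (f := fun i => E (i + 1)) (fun i _ => hES _) ?_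
    have key : ∀ i ∈ J, ∀ j ∈ J, i < j → E (i + 1) < E (j + 1) := by
      intro i _ j hj hij
      have h1 := hmono (i + 1) j (by omega)
      have h2 := hmono j (j + 1) (by omega)
      have h3 : E j ≠ E (j + 1) := hj
      omega
    intro i hi j hj hij
    by_contra hne
    rcases lt_or_gt_of_ne hne with h | h
    · exact absurd hij (key i hi j hj h).ne
    · exact absurd hij (key j hj i hi h).ne'
  have hJf : J.Finite := Set.finite_of_encard_le_coe hJc
  have hJcard : hJf.toFinset.card ≤ S.card := by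
    rw [hJf.encard_eq_coe_toFinset_card] at hJc
    exact_mod_cast hJc
  refine ⟨(Finset.Icc (-2:ℤ) 2).biUnion (fun t => hJf.toFinset.image (fun i => i + t)), ?_, ?_⟩
  · refine (Finset.card_biUnion_le_card_mul _ _ S.card fun t _ =>
      Finset.card_image_le.trans hJcard).trans (le_of_eq ?_)
    simp
  intro i hi x hx e' he'
  have hstep : ∀ t ∈ Finset.Icc (-2:ℤ) 2, E (i - t) = E (i - t + 1) := by
    intro t ht
    by_contra hcon
    apply hi
    rw [Finset.mem_biUnion]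
    refine ⟨t, ht, ?_⟩
    rw [Finset.mem_image]
    exact ⟨i - t, hJf.mem_toFinset.2 hcon, by ring⟩
  have s2 := hstep 2 (by simp)
  have s1 := hstep 1 (by simp)
  have s0 := hstep 0 (by simp)
  have t1 := hstep (-1) (by simp)
  have t2 := hstep (-2) (by simp)
  rw [show i - 2 + 1 = i - 1 by ring] at s2
  rw [show i - 1 + 1 = i by ring] at s1
  rw [sub_zero] at s0
  rw [show i - -1 = i + 1 by ring, show i + 1 + 1 = i + 2 by ring] at t1
  rw [show i - -2 = i + 2 by ring, show i + 2 + 1 = i + 3 by ring] at t2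
  obtain ⟨e, he⟩ : ∃ e, e = E i := ⟨_, rfl⟩
  have hlowE : E (i - 2) = e := by rw [s2, s1, he]
  have hhighE : E (i + 3) = e := by rw [← t2, ← t1, ← s0, he]
  have heS : e ∈ S := he ▸ hES i
  have hlow := hEm (i - 2)
  have hhigh := hEm (i + 3)
  rw [hlowE] at hlow
  rw [hhighE] at hhigh
  have hi0 : (0:ℝ) < (2:ℝ) ^ i := zpow_pos two_pos _
  have hx0 : 0 < x := hi0.trans_le hx.1
  have hy : (2:ℝ) ^ (i - 2) ≤ x * (1 / 4) := by
    rw [zpow_sub₀ (by norm_num)]
    norm_num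
    linarith [hx.1]
  have hyp : (0:ℝ) < (2:ℝ) ^ (i - 2) := zpow_pos two_pos _
  have hz : x ≤ (2:ℝ) ^ (i + 3) * (1 / 4) := by
    have h1 : (2:ℝ) ^ (i + 3) = 4 * (2:ℝ) ^ (i + 1) := by
      rw [show i + 3 = (i + 1) + 2 by ring, zpow_add₀ (by norm_num : (2:ℝ) ≠ 0) (i + 1) 2]
      norm_num
      ring
    rw [h1]
    linarith [hx.2]
  have hzp : (0:ℝ) < (2:ℝ) ^ (i + 3) := zpow_pos two_pos _
  -- the bounds for the other terms
  have hup : ∀ d : ℕ, e + (d + 1) ∈ S →
      |a (e + (d + 1))| * x ^ (e + (d + 1)) ≤ |a e| * x ^ e * (1 / 4) ^ (d + 1) := by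
    intro d hd
    have h1 := hhigh _ hd
    rw [pow_add, ← mul_assoc, mul_right_comm] at h1
    have h2 : |a (e + (d + 1))| * ((2:ℝ) ^ (i + 3)) ^ (d + 1) ≤ |a e| := by
      have hp : 0 < ((2:ℝ) ^ (i + 3)) ^ e := by positivity
      exact le_of_mul_le_mul_right h1 hp
    have h3 : x ^ (d + 1) ≤ ((2:ℝ) ^ (i + 3)) ^ (d + 1) * (1 / 4) ^ (d + 1) := by
      rw [← mul_pow]
      exact pow_le_pow_left₀ hx0.le hz _
    calc |a (e + (d + 1))| * x ^ (e + (d + 1))
        = |a (e + (d + 1))| * x ^ (d + 1) * x ^ e := by rw [pow_add]; ring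
      _ ≤ |a (e + (d + 1))| * (((2:ℝ) ^ (i + 3)) ^ (d + 1) * (1 / 4) ^ (d + 1)) * x ^ e := by
          gcongr
      _ = |a (e + (d + 1))| * ((2:ℝ) ^ (i + 3)) ^ (d + 1) * ((1 / 4) ^ (d + 1) * x ^ e) := by ring
      _ ≤ |a e| * ((1 / 4) ^ (d + 1) * x ^ e) := by gcongr
      _ = |a e| * x ^ e * (1 / 4) ^ (d + 1) := by ring
  have hdown : ∀ e'' d : ℕ, e'' ∈ S → e = e'' + (d + 1) →
      |a e''| * x ^ e'' ≤ |a e| * x ^ e * (1 / 4) ^ (d + 1) := by
    intro e'' d hd hed
    have h1 := hlow _ hd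
    have h2 : |a e''| ≤ |a e| * ((2:ℝ) ^ (i - 2)) ^ (d + 1) := by
      have hp : 0 < ((2:ℝ) ^ (i - 2)) ^ e'' := by positivity
      refine le_of_mul_le_mul_right ?_ hp
      refine h1.trans (le_of_eq ?_)
      conv_lhs => rw [hed, pow_add]
      rw [hed]
      ring
    have h3 : ((2:ℝ) ^ (i - 2)) ^ (d + 1) ≤ x ^ (d + 1) * (1 / 4) ^ (d + 1) := by
      rw [← mul_pow]
      exact pow_le_pow_left₀ hyp.le hy _
    calc |a e''| * x ^ e'' ≤ |a e| * ((2:ℝ) ^ (i - 2)) ^ (d + 1) * x ^ e'' := by gcongr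
      _ ≤ |a e| * (x ^ (d + 1) * (1 / 4) ^ (d + 1)) * x ^ e'' := by gcongr
      _ = |a e| * x ^ e * (1 / 4) ^ (d + 1) := by
          have : x ^ e = x ^ e'' * x ^ (d + 1) := by rw [hed, pow_add]
          rw [this]; ring
  have hTe : 0 ≤ |a e| * x ^ e := by positivity
  -- sum over the larger exponents
  have hsum1 : ∑ f ∈ S.filter (fun f => e < f), |a f| * x ^ f ≤ |a e| * x ^ e * (1 / 3) := by
    calc ∑ f ∈ S.filter (fun f => e < f), |a f| * x ^ f
        ≤ ∑ f ∈ S.filter (fun f => e < f), |a e| * x ^ e * (1 / 4) ^ ((f - e - 1) + 1) := by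
          refine Finset.sum_le_sum fun f hf => ?_
          rw [Finset.mem_filter] at hf
          obtain ⟨d, hd⟩ : ∃ d, f = e + (d + 1) := ⟨f - e - 1, by omega⟩
          have h1 := hup d (hd ▸ hf.1)
          rw [← hd] at h1
          have : f - e - 1 = d := by omega
          rw [this]
          exact h1
      _ = |a e| * x ^ e * ∑ f ∈ S.filter (fun f => e < f), (1 / 4 : ℝ) ^ ((f - e - 1) + 1) := by
          rw [Finset.mul_sum]
      _ ≤ |a e| * x ^ e * (1 / 3) := by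
          refine mul_le_mul_of_nonneg_left (geo_le _ (fun f => f - e - 1) ?_) hTe
          intro f hf f' hf' hff
          simp only [Finset.coe_filter, mem_ofPred_eq] at hf hf'
          simp only at hff
          omega
  have hsum2 : ∑ f ∈ S.filter (fun f => f < e), |a f| * x ^ f ≤ |a e| * x ^ e * (1 / 3) := by
    calc ∑ f ∈ S.filter (fun f => f < e), |a f| * x ^ f
        ≤ ∑ f ∈ S.filter (fun f => f < e), |a e| * x ^ e * (1 / 4) ^ ((e - f - 1) + 1) := by
          refine Finset.sum_le_sum fun f hf => ?_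
          rw [Finset.mem_filter] at hf
          exact hdown f (e - f - 1) hf.1 (by omega)
      _ = |a e| * x ^ e * ∑ f ∈ S.filter (fun f => f < e), (1 / 4 : ℝ) ^ ((e - f - 1) + 1) := by
          rw [Finset.mul_sum]
      _ ≤ |a e| * x ^ e * (1 / 3) := by
          refine mul_le_mul_of_nonneg_left (geo_le _ (fun f => e - f - 1) ?_) hTe
          intro f hf f' hf' hff
          simp only [Finset.coe_filter, mem_ofPred_eq] at hf hf'
          simp only at hff
          omega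
  have hsplit : ∑ f ∈ S, a f * x ^ f = a e * x ^ e + (∑ f ∈ S.filter (fun f => e < f), a f * x ^ f +
      ∑ f ∈ S.filter (fun f => f < e), a f * x ^ f) := by
    rw [← Finset.add_sum_erase S _ heS]
    congr 1
    rw [← Finset.sum_union]
    · congr 1
      ext f
      simp only [Finset.mem_erase, Finset.mem_union, Finset.mem_filter]
      constructor
      · rintro ⟨h1, h2⟩
        rcases lt_or_gt_of_ne h1 with h | h
        · exact Or.inr ⟨h2, h⟩
        · exact Or.inl ⟨h2, h⟩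
      · rintro (⟨h1, h2⟩ | ⟨h1, h2⟩)
        · exact ⟨h2.ne', h1⟩
        · exact ⟨h2.ne, h1⟩
    · rw [Finset.disjoint_left]
      intro f hf hf'
      rw [Finset.mem_filter] at hf hf'
      omega
  have habs : ∀ T : Finset ℕ, |∑ f ∈ T, a f * x ^ f| ≤ ∑ f ∈ T, |a f| * x ^ f := by
    intro T
    refine (Finset.abs_sum_le_sum_abs _ _).trans (le_of_eq ?_)
    refine Finset.sum_congr rfl fun f _ => ?_
    rw [abs_mul, abs_of_pos (pow_pos hx0 f)]
  have hmain : |a e| * x ^ e ≤ 3 * |∑ f ∈ S, a f * x ^ f| := by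
    have h1 : |a e * x ^ e| = |a e| * x ^ e := by rw [abs_mul, abs_of_pos (pow_pos hx0 e)]
    have h2 : a e * x ^ e = ∑ f ∈ S, a f * x ^ f - (∑ f ∈ S.filter (fun f => e < f), a f * x ^ f +
      ∑ f ∈ S.filter (fun f => f < e), a f * x ^ f) := by rw [hsplit]; ring
    have h3 := abs_sub (∑ f ∈ S, a f * x ^ f) (∑ f ∈ S.filter (fun f => e < f), a f * x ^ f +
      ∑ f ∈ S.filter (fun f => f < e), a f * x ^ f)
    rw [← h2, h1] at h3
    have h4 := abs_add_le (∑ f ∈ S.filter (fun f => e < f), a f * x ^ f)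
      (∑ f ∈ S.filter (fun f => f < e), a f * x ^ f)
    have h5 := habs (S.filter (fun f => e < f))
    have h6 := habs (S.filter (fun f => f < e))
    linarith
  refine le_trans ?_ hmain
  rcases lt_trichotomy e' e with h | h | h
  · refine (hdown e' (e - e' - 1) he' (by omega)).trans ?_
    exact mul_le_of_le_one_right hTe (pow_le_one₀ (by norm_num) (by norm_num))
  · rw [h]
  · obtain ⟨d, hd⟩ : ∃ d, e' = e + (d + 1) := ⟨e' - e - 1, by omega⟩
    have h1 := hup d (hd ▸ he')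
    rw [← hd] at h1
    refine h1.trans ?_
    exact mul_le_of_le_one_right hTe (pow_le_one₀ (by norm_num) (by norm_num))

end Pool.Agent.TH275.LF
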